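import Mathlib

/-!
Three points `(y, x)` near the curve `x ^ 2 = y ^ 3` whose `y`-coordinates are close together: they
are extremely close or far apart.
-/

set_option autoImplicit false

namespace PerfectPowerDiff.Dens

/-- distance of `x` from `s ^ 3` when `x ^ 2` is near `s ^ 6` -/
private lemma near_root {x s T N : ℝ} (hx : 0 ≤ x) (hT : 0 ≤ T) (hs : T ≤ s ^ 3)
    (h1 : x ^ 2 ≤ s ^ 6 + N) (h2 : s ^ 6 ≤ x ^ 2 + N) :
    (x - s ^ 3) * T ≤ N ∧ -((x - s ^ 3) * T) ≤ N := by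
  have hs0 : 0 ≤ s ^ 3 := hT.trans hs
  have e : (x - s ^ 3) * (x + s ^ 3) = x ^ 2 - s ^ 6 := by ring
  rcases le_total (s ^ 3) x with h | h
  · have h3 : (x - s ^ 3) * T ≤ (x - s ^ 3) * (x + s ^ 3) :=
      mul_le_mul_of_nonneg_left (by linarith) (by linarith)
    have h4 : 0 ≤ (x - s ^ 3) * T := mul_nonneg (by linarith) hT
    constructor <;> linarith
  · have h3 : (s ^ 3 - x) * T ≤ (s ^ 3 - x) * (x + s ^ 3) :=
      mul_le_mul_of_nonneg_left (by linarith) (by linarith)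
    have h4 : 0 ≤ (s ^ 3 - x) * T := mul_nonneg (by linarith) hT
    constructor <;> nlinarith

/-- the real determinant -/
private lemma det_bounds {s1 s2 s3 : ℝ} (h0 : 0 < s1) (h12 : s1 ≤ s2) (h23 : s2 ≤ s3)
    (h31 : s3 ≤ 2 * s1) (hb : 1 ≤ s2 ^ 2 - s1 ^ 2) (hc : 1 ≤ s3 ^ 2 - s2 ^ 2) :
    (s3 ^ 2 - s1 ^ 2) ^ 2 ≤ 24 * s1 * ((s2 ^ 2 - s1 ^ 2) * (s3 ^ 3 - s1 ^ 3)
        - (s3 ^ 2 - s1 ^ 2) * (s2 ^ 3 - s1 ^ 3)) ∧
      4 * s1 * ((s2 ^ 2 - s1 ^ 2) * (s3 ^ 3 - s1 ^ 3)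
        - (s3 ^ 2 - s1 ^ 2) * (s2 ^ 3 - s1 ^ 3)) ≤ (s3 ^ 2 - s1 ^ 2) ^ 3 := by
  have key : (s2 ^ 2 - s1 ^ 2) * (s3 ^ 3 - s1 ^ 3) - (s3 ^ 2 - s1 ^ 2) * (s2 ^ 3 - s1 ^ 3)
      = (s2 - s1) * (s3 - s1) * (s3 - s2) * (s1 * s2 + s2 * s3 + s3 * s1) := by ring
  rw [key]
  set p := s2 - s1 with hp
  set q := s3 - s1 with hq
  set r := s3 - s2 with hr
  set S := s1 * s2 + s2 * s3 + s3 * s1 with hS
  have hp0 : 0 ≤ p := by rw [hp]; linarith
  have hq0 : 0 ≤ q := by rw [hq]; linarith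
  have hr0 : 0 ≤ r := by rw [hr]; linarith
  have hs2 : 0 < s2 := by linarith
  have hs3 : 0 < s3 := by linarith
  set b := s2 ^ 2 - s1 ^ 2 with hbd
  set c := s3 ^ 2 - s2 ^ 2 with hcd
  have ha : s3 ^ 2 - s1 ^ 2 = b + c := by rw [hbd, hcd]; ring
  rw [ha]
  have e1 : p * (s1 + s2) = b := by rw [hp, hbd]; ring
  have e2 : r * (s2 + s3) = c := by rw [hr, hcd]; ring
  have e3 : q * (s1 + s3) = b + c := by rw [hq, hbd, hcd]; ring
  have hprod : p * q * r * ((s1 + s2) * (s1 + s3) * (s2 + s3)) = b * (b + c) * c := by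
    rw [← e3, ← e1, ← e2]; ring
  have hpqr : 0 ≤ p * q * r := by positivity
  -- bounds for the denominators
  have d1 : (s1 + s2) * (s1 + s3) * (s2 + s3) ≤ 36 * s1 ^ 3 := by
    have i1 : s1 + s2 ≤ 3 * s1 := by linarith
    have i2 : s1 + s3 ≤ 3 * s1 := by linarith
    have i3 : s2 + s3 ≤ 4 * s1 := by linarith
    calc (s1 + s2) * (s1 + s3) * (s2 + s3) ≤ (3 * s1) * (3 * s1) * (4 * s1) := by
          gcongr
      _ = 36 * s1 ^ 3 := by ring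
  have d2 : 8 * s1 ^ 3 ≤ (s1 + s2) * (s1 + s3) * (s2 + s3) := by
    calc 8 * s1 ^ 3 = (2 * s1) * (2 * s1) * (2 * s1) := by ring
      _ ≤ (s1 + s2) * (s1 + s3) * (s2 + s3) := by
          gcongr <;> linarith
  have S1 : 3 * s1 ^ 2 ≤ S := by
    rw [hS]
    nlinarith
  have S2 : S ≤ 8 * s1 ^ 2 := by
    rw [hS]
    nlinarith
  have hS0 : 0 ≤ S := by
    have : 0 < s1 ^ 2 := by positivity
    linarith
  have hbc : (b + c) ≤ 2 * (b * c) := by nlinarith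
  have hbc4 : 4 * (b * c) ≤ (b + c) ^ 2 := by nlinarith [sq_nonneg (b - c)]
  have hbc0 : 0 ≤ b + c := by linarith
  have hs13 : 0 < s1 ^ 3 := by positivity
  have hs12 : 0 < s1 ^ 2 := by positivity
  constructor
  · -- lower bound
    have h1 : b * (b + c) * c ≤ p * q * r * (36 * s1 ^ 3) := by
      rw [← hprod]
      exact mul_le_mul_of_nonneg_left d1 hpqr
    have h2 : p * q * r * (3 * s1 ^ 2) ≤ p * q * r * S := mul_le_mul_of_nonneg_left S1 hpqr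
    have h3 : (b + c) ^ 2 ≤ 2 * (b * (b + c) * c) := by nlinarith
    have h4 : p * q * r * (36 * s1 ^ 3) = 12 * s1 * (p * q * r * (3 * s1 ^ 2)) := by ring
    have h5 : 12 * s1 * (p * q * r * (3 * s1 ^ 2)) ≤ 12 * s1 * (p * q * r * S) :=
      mul_le_mul_of_nonneg_left h2 (by positivity)
    linarith
  · -- upper bound
    have h1 : p * q * r * (8 * s1 ^ 3) ≤ b * (b + c) * c := by
      rw [← hprod]
      exact mul_le_mul_of_nonneg_left d2 hpqr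
    have h2 : p * q * r * S ≤ p * q * r * (8 * s1 ^ 2) := mul_le_mul_of_nonneg_left S2 hpqr
    have h3 : 4 * (b * (b + c) * c) ≤ (b + c) ^ 3 := by nlinarith
    have h4 : 4 * s1 * (p * q * r * S) ≤ 4 * s1 * (p * q * r * (8 * s1 ^ 2)) :=
      mul_le_mul_of_nonneg_left h2 (by positivity)
    have h5 : 4 * s1 * (p * q * r * (8 * s1 ^ 2)) = 4 * (p * q * r * (8 * s1 ^ 3)) := by ring
    linarith

/-- three points near the curve -/
theorem three_points {N L y1 y2 y3 x1 x2 x3 : ℕ} (hL0 : 0 < L) (h12 : y1 < y2) (h23 : y2 < y3)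
    (ha : y3 - y1 ≤ L) (hL : L ^ 6 ≤ y1) (hN : (6 * L * N) ^ 2 ≤ y1 ^ 3)
    (a1 : x1 ^ 2 ≤ y1 ^ 3 + N) (b1 : y1 ^ 3 ≤ x1 ^ 2 + N)
    (a2 : x2 ^ 2 ≤ y2 ^ 3 + N) (b2 : y2 ^ 3 ≤ x2 ^ 2 + N)
    (a3 : x3 ^ 2 ≤ y3 ^ 3 + N) (b3 : y3 ^ 3 ≤ x3 ^ 2 + N) :
    (y3 - y1) * y1 ≤ 96 * N := by
  -- the square roots
  obtain ⟨s1, hs1, e1⟩ : ∃ s : ℝ, 0 ≤ s ∧ s ^ 2 = y1 := ⟨√y1, by positivity, Real.sq_sqrt (by positivity)⟩
  obtain ⟨s2, hs2, e2⟩ : ∃ s : ℝ, 0 ≤ s ∧ s ^ 2 = y2 := ⟨√y2, by positivity, Real.sq_sqrt (by positivity)⟩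
  obtain ⟨s3, hs3, e3⟩ : ∃ s : ℝ, 0 ≤ s ∧ s ^ 2 = y3 := ⟨√y3, by positivity, Real.sq_sqrt (by positivity)⟩
  have hLy : L ≤ y1 := (Nat.le_self_pow (by norm_num) L).trans hL
  have hy1 : 1 ≤ y1 := by omega
  have hy1r : (1 : ℝ) ≤ y1 := by exact_mod_cast hy1
  have r12 : (y1 : ℝ) + 1 ≤ y2 := by exact_mod_cast h12
  have r23 : (y2 : ℝ) + 1 ≤ y3 := by exact_mod_cast h23
  have r31 : (y3 : ℝ) ≤ y1 + L := by
    have : y3 ≤ y1 + L := by omega
    exact_mod_cast this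
  have rLy : (L : ℝ) ≤ y1 := by exact_mod_cast hLy
  have hs1p : 0 < s1 := by
    rcases hs1.lt_or_eq with h | h
    · exact h
    · exfalso
      rw [← h] at e1
      norm_num at e1
      linarith
  have o12 : s1 ≤ s2 := by
    apply le_of_sq_le_sq _ hs2
    rw [e1, e2]; linarith
  have o23 : s2 ≤ s3 := by
    apply le_of_sq_le_sq _ hs3
    rw [e2, e3]; linarith
  have o31 : s3 ≤ 2 * s1 := by
    apply le_of_sq_le_sq _ (by positivity)
    rw [e3, mul_pow, e1]; linarith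
  obtain ⟨D1, D2⟩ := det_bounds hs1p o12 o23 o31 (by rw [e1, e2]; linarith) (by rw [e2, e3]; linarith)
  rw [e1, e2, e3] at D1 D2
  set F : ℝ := ((y2 : ℝ) - y1) * (s3 ^ 3 - s1 ^ 3) - ((y3 : ℝ) - y1) * (s2 ^ 3 - s1 ^ 3) with hF
  set T : ℝ := s1 ^ 3 with hT
  have hT0 : 0 < T := by rw [hT]; positivity
  have p6 : ∀ (s : ℝ) (y : ℕ), s ^ 2 = y → s ^ 6 = (y : ℝ) ^ 3 := by
    intro s y h
    rw [← h]; ring
  obtain ⟨u1, v1⟩ := near_root (x := x1) (s := s1) (T := T) (N := N) (by positivity) hT0.le le_rfl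
    (by rw [p6 _ _ e1]; exact_mod_cast a1) (by rw [p6 _ _ e1]; exact_mod_cast b1)
  obtain ⟨u2, v2⟩ := near_root (x := x2) (s := s2) (T := T) (N := N) (by positivity) hT0.le
    (by rw [hT]; gcongr)
    (by rw [p6 _ _ e2]; exact_mod_cast a2) (by rw [p6 _ _ e2]; exact_mod_cast b2)
  obtain ⟨u3, v3⟩ := near_root (x := x3) (s := s3) (T := T) (N := N) (by positivity) hT0.le
    (by rw [hT]; gcongr; linarith)
    (by rw [p6 _ _ e3]; exact_mod_cast a3) (by rw [p6 _ _ e3]; exact_mod_cast b3)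
  -- the integer determinant
  set Δ : ℤ := ((y2 : ℤ) - y1) * (x3 - x1) - ((y3 : ℤ) - y1) * (x2 - x1) with hΔ
  set t1 : ℝ := (x1 : ℝ) - s1 ^ 3 with ht1
  set t2 : ℝ := (x2 : ℝ) - s2 ^ 3 with ht2
  set t3 : ℝ := (x3 : ℝ) - s3 ^ 3 with ht3
  have hΔr : (Δ : ℝ) * T = F * T + (((y2 : ℝ) - y1) * (t3 * T - t1 * T)
      - ((y3 : ℝ) - y1) * (t2 * T - t1 * T)) := by
    rw [hΔ, hF, ht1, ht2, ht3]
    push_cast
    ring
  set a : ℝ := (y3 : ℝ) - y1 with had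
  have hba : (y2 : ℝ) - y1 ≤ a := by rw [had]; linarith
  have hb0 : 0 ≤ (y2 : ℝ) - y1 := by linarith
  have ha0 : 0 < a := by rw [had]; linarith
  have hNr : (0 : ℝ) ≤ N := by positivity
  have w1 : ((y2 : ℝ) - y1) * (t3 * T - t1 * T) ≤ a * (2 * N) := by
    calc ((y2 : ℝ) - y1) * (t3 * T - t1 * T) ≤ ((y2 : ℝ) - y1) * (2 * N) :=
          mul_le_mul_of_nonneg_left (by linarith) hb0
      _ ≤ a * (2 * N) := mul_le_mul_of_nonneg_right hba (by positivity)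
  have w2 : -(((y2 : ℝ) - y1) * (t3 * T - t1 * T)) ≤ a * (2 * N) := by
    calc -(((y2 : ℝ) - y1) * (t3 * T - t1 * T)) = ((y2 : ℝ) - y1) * (t1 * T - t3 * T) := by ring
      _ ≤ ((y2 : ℝ) - y1) * (2 * N) := mul_le_mul_of_nonneg_left (by linarith) hb0
      _ ≤ a * (2 * N) := mul_le_mul_of_nonneg_right hba (by positivity)
  have w3 : a * (t2 * T - t1 * T) ≤ a * (2 * N) :=
    mul_le_mul_of_nonneg_left (by linarith) ha0.le
  have w4 : -(a * (t2 * T - t1 * T)) ≤ a * (2 * N) := by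
    calc -(a * (t2 * T - t1 * T)) = a * (t1 * T - t2 * T) := by ring
      _ ≤ a * (2 * N) := mul_le_mul_of_nonneg_left (by linarith) ha0.le
  rcases eq_or_ne Δ 0 with h0 | h0
  · -- collinear points
    rw [h0, Int.cast_zero, zero_mul] at hΔr
    have i1 : F * T ≤ 4 * a * N := by linarith
    have i2 : a ^ 2 * s1 ^ 2 ≤ 24 * (F * T) := by
      have : a ^ 2 * s1 ^ 2 ≤ (24 * s1 * F) * s1 ^ 2 := mul_le_mul_of_nonneg_right D1 (by positivity)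
      calc a ^ 2 * s1 ^ 2 ≤ (24 * s1 * F) * s1 ^ 2 := this
        _ = 24 * (F * T) := by rw [hT]; ring
    rw [e1] at i2
    have i3 : a * (a * y1) ≤ a * (96 * N) := by nlinarith
    have i4 : a * y1 ≤ 96 * N := le_of_mul_le_mul_left i3 ha0
    have i5 : (((y3 - y1) * y1 : ℕ) : ℝ) ≤ ((96 * N : ℕ) : ℝ) := by
      push_cast [Nat.cast_sub (by omega : y1 ≤ y3)]
      exact i4
    exact_mod_cast i5
  · -- a nonzero determinant
    exfalso
    have j1 : (1 : ℝ) ≤ |(Δ : ℝ)| := by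
      have : (1 : ℤ) ≤ |Δ| := Int.one_le_abs h0
      exact_mod_cast this
    have haL : a ≤ L := by rw [had]; linarith
    -- a ^ 3 ≤ s1
    have j2 : a ^ 3 ≤ s1 := by
      apply le_of_sq_le_sq _ hs1
      rw [e1]
      calc (a ^ 3) ^ 2 = a ^ 6 := by ring
        _ ≤ (L : ℝ) ^ 6 := pow_le_pow_left₀ ha0.le haL 6
        _ ≤ y1 := by exact_mod_cast hL
    have j3 : 6 * (L : ℝ) * N ≤ T := by
      apply le_of_sq_le_sq _ hT0.le
      rw [hT]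
      calc (6 * (L : ℝ) * N) ^ 2 ≤ (y1 : ℝ) ^ 3 := by exact_mod_cast hN
        _ = (s1 ^ 3) ^ 2 := by rw [← e1]; ring
    have j4 : 4 * (F * T) ≤ T := by
      have : (4 * s1 * F) * s1 ^ 2 ≤ a ^ 3 * s1 ^ 2 := mul_le_mul_of_nonneg_right D2 (by positivity)
      calc 4 * (F * T) = (4 * s1 * F) * s1 ^ 2 := by rw [hT]; ring
        _ ≤ a ^ 3 * s1 ^ 2 := this
        _ ≤ s1 * s1 ^ 2 := mul_le_mul_of_nonneg_right j2 (by positivity)
        _ = T := by rw [hT]; ring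
    have hF0 : 0 ≤ F := by
      by_contra hcon
      rw [not_le] at hcon
      have : 24 * s1 * F < 0 := by
        apply mul_neg_of_pos_of_neg (by positivity) hcon
      have h2 : 0 ≤ a ^ 2 := by positivity
      linarith
    have hFT : 0 ≤ F * T := mul_nonneg hF0 hT0.le
    have j5 : a * N ≤ L * N := mul_le_mul_of_nonneg_right haL hNr
    have j6 : T ≤ |(Δ : ℝ)| * T := by nlinarith
    rcases abs_cases (Δ : ℝ) with ⟨h, _⟩ | ⟨h, _⟩
    · rw [h] at j6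
      linarith
    · rw [h] at j6
      linarith

end PerfectPowerDiff.Dens
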