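import Pool.Agent.Lib.MP_cb2e5b_nt.Count
import Pool.Agent.Lib.MP_cb2e5b_nt.Dens.Three

/-!
The number of `z ≤ D ^ (36 t - 6)` for which some square is at distance at most `D ^ (30 t)` from
`z ^ 3`.
-/

set_option autoImplicit false

namespace PerfectPowerDiff.Dens

/-- the `z` in `(a, b]` with a square near `z ^ 3` -/
def goodZ (N a b : ℕ) : Finset ℕ := (Finset.Ioc a b).filter (fun z => (ZZ 2 (z ^ 3) N).Nonempty)

private lemma mem_near {N z : ℕ} (h : (ZZ 2 (z ^ 3) N).Nonempty) :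
    ∃ x : ℕ, x ^ 2 ≤ z ^ 3 + N ∧ z ^ 3 ≤ x ^ 2 + N := by
  obtain ⟨x, hx⟩ := h
  unfold ZZ at hx
  rw [Finset.mem_filter] at hx
  exact ⟨x, hx.2⟩

/-- one cell -/
private lemma card_cell {N L E a b c : ℕ} (hL0 : 0 < L) (hL : L ^ 6 ≤ a)
    (hN : (6 * L * N) ^ 2 ≤ a ^ 3) (hE : N ≤ E * a) :
    ((goodZ N a b).filter (fun z => z / L = c)).card ≤ 96 * E + 2 := by
  set s := (goodZ N a b).filter (fun z => z / L = c) with hs
  have hmem : ∀ z ∈ s, a < z ∧ z / L = c ∧ ∃ x : ℕ, x ^ 2 ≤ z ^ 3 + N ∧ z ^ 3 ≤ x ^ 2 + N := by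
    intro z hz
    rw [hs, Finset.mem_filter] at hz
    have h1 := hz.1
    unfold goodZ at h1
    rw [Finset.mem_filter, Finset.mem_Ioc] at h1
    exact ⟨h1.1.1, hz.2, mem_near h1.2⟩
  rcases Nat.lt_or_ge s.card 3 with h3 | h3
  · omega
  · have hne : s.Nonempty := Finset.card_pos.1 (by omega)
    -- a middle element
    obtain ⟨z, hz, hz1, hz2⟩ : ∃ z ∈ s, z ≠ s.min' hne ∧ z ≠ s.max' hne := by
      by_contra hcon
      push Not at hcon
      have hsub : s ⊆ {s.min' hne, s.max' hne} := by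
        intro z hz
        rw [Finset.mem_insert, Finset.mem_singleton]
        by_cases h : z = s.min' hne
        · exact Or.inl h
        · exact Or.inr (hcon z hz h)
      have := Finset.card_le_card hsub
      have h2 := Finset.card_le_two (a := s.min' hne) (b := s.max' hne)
      omega
    have hm := s.min'_mem hne
    have hM := s.max'_mem hne
    have l1 : s.min' hne < z := lt_of_le_of_ne (s.min'_le z hz) (Ne.symm hz1)
    have l2 : z < s.max' hne := lt_of_le_of_ne (s.le_max' z hz) hz2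
    obtain ⟨m1, m2, x1, m3, m4⟩ := hmem _ hm
    obtain ⟨_, _, x2, n3, n4⟩ := hmem _ hz
    obtain ⟨M1, M2, x3, M3, M4⟩ := hmem _ hM
    have hd : s.max' hne - s.min' hne ≤ L := by
      have h1 := Nat.div_add_mod (s.max' hne) L
      have h2 := Nat.div_add_mod (s.min' hne) L
      have h4 := Nat.mod_lt (s.max' hne) hL0
      rw [M2] at h1
      rw [m2] at h2
      omega
    have key := three_points hL0 l1 l2 hd (hL.trans m1.le)
      (hN.trans (Nat.pow_le_pow_left m1.le 3)) m3 m4 n3 n4 M3 M4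
    have ha0 : 0 < a := lt_of_lt_of_le (pow_pos hL0 6) hL
    have k2 : (s.max' hne - s.min' hne) * a ≤ (96 * E) * a := by
      calc (s.max' hne - s.min' hne) * a ≤ (s.max' hne - s.min' hne) * s.min' hne :=
            Nat.mul_le_mul_left _ m1.le
        _ ≤ 96 * N := key
        _ ≤ 96 * (E * a) := Nat.mul_le_mul_left _ hE
        _ = (96 * E) * a := by ring
    have k3 : s.max' hne - s.min' hne ≤ 96 * E := Nat.le_of_mul_le_mul_right k2 ha0
    have k4 := card_le_of_diam (s := s) (B := 96 * E) (by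
      intro z1 h1 z2 h2 _
      have q1 := s.min'_le z1 h1
      have q2 := s.le_max' z2 h2
      omega)
    omega

/-- the good `z` in one range -/
theorem card_range {N L E a b : ℕ} (hL0 : 0 < L) (hL : L ^ 6 ≤ a)
    (hN : (6 * L * N) ^ 2 ≤ a ^ 3) (hE : N ≤ E * a) :
    (goodZ N a b).card ≤ (96 * E + 2) * (b / L + 1) := by
  have h1 := Finset.card_le_mul_card_image (f := fun z => z / L) (goodZ N a b) (96 * E + 2)
    (fun c _ => card_cell hL0 hL hN hE)
  refine h1.trans (Nat.mul_le_mul_left _ ?_)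
  have h2 : (goodZ N a b).image (fun z => z / L) ⊆ Finset.range (b / L + 1) := by
    intro c hc
    rw [Finset.mem_image] at hc
    obtain ⟨z, hz, rfl⟩ := hc
    unfold goodZ at hz
    rw [Finset.mem_filter, Finset.mem_Ioc] at hz
    rw [Finset.mem_range]
    have := Nat.div_le_div_right (c := L) hz.1.2
    omega
  have h3 := Finset.card_le_card h2
  rwa [Finset.card_range] at h3

theorem goodZ_union {N a b c : ℕ} : goodZ N a c ⊆ goodZ N a b ∪ goodZ N b c := by
  intro z hz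
  unfold goodZ at hz ⊢
  rw [Finset.mem_filter, Finset.mem_Ioc] at hz
  rw [Finset.mem_union, Finset.mem_filter, Finset.mem_filter, Finset.mem_Ioc, Finset.mem_Ioc]
  by_cases h : z ≤ b
  · exact Or.inl ⟨⟨hz.1.1, h⟩, hz.2⟩
  · exact Or.inr ⟨⟨not_le.1 h, hz.1.2⟩, hz.2⟩

/-- the ranges between powers of `D ^ 6` -/
theorem card_step {D t j : ℕ} (hD : 2 ≤ D) (ht : 2 ≤ t) (h1 : 4 * t + 1 ≤ j) (h2 : j + 2 ≤ 6 * t) :
    (goodZ (D ^ (30 * t)) (D ^ (6 * j)) (D ^ (6 * (j + 1)))).card ≤ 196 * D ^ (30 * t - 1) := by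
  have hD0 : 0 < D := by omega
  have hL0 : 0 < D ^ j := pow_pos hD0 j
  have h36 : 36 ≤ D ^ (4 * t + 16) := by
    calc 36 ≤ 2 ^ 16 := by norm_num
      _ ≤ 2 ^ (4 * t + 16) := Nat.pow_le_pow_right (by norm_num) (by omega)
      _ ≤ D ^ (4 * t + 16) := Nat.pow_le_pow_left hD _
  have hN : (6 * D ^ j * D ^ (30 * t)) ^ 2 ≤ (D ^ (6 * j)) ^ 3 := by
    calc (6 * D ^ j * D ^ (30 * t)) ^ 2 = 36 * D ^ (2 * j + 60 * t) := by
          rw [mul_pow, mul_pow, ← pow_mul, ← pow_mul, mul_assoc, ← pow_add]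
          norm_num
          ring_nf
      _ ≤ D ^ (4 * t + 16) * D ^ (2 * j + 60 * t) := Nat.mul_le_mul_right _ h36
      _ = D ^ (4 * t + 16 + (2 * j + 60 * t)) := (pow_add _ _ _).symm
      _ ≤ D ^ (6 * j * 3) := Nat.pow_le_pow_right hD0 (by omega)
      _ = (D ^ (6 * j)) ^ 3 := by rw [pow_mul]
  have hE : D ^ (30 * t) ≤ D ^ (30 * t - 6 * j) * D ^ (6 * j) := by
    rw [← pow_add]
    exact Nat.pow_le_pow_right hD0 (by omega)
  have hc := card_range (b := D ^ (6 * (j + 1))) hL0 (by rw [← pow_mul, mul_comm j 6]) hN hE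
  refine hc.trans ?_
  have e1 : D ^ (6 * (j + 1)) / D ^ j = D ^ (5 * j + 6) := by
    rw [show 6 * (j + 1) = (5 * j + 6) + j by ring, pow_add]
    exact Nat.mul_div_cancel _ hL0
  rw [e1]
  have u1 : 1 ≤ D ^ (30 * t - 6 * j) := Nat.one_le_pow _ _ hD0
  have u2 : 1 ≤ D ^ (5 * j + 6) := Nat.one_le_pow _ _ hD0
  calc (96 * D ^ (30 * t - 6 * j) + 2) * (D ^ (5 * j + 6) + 1)
      ≤ (98 * D ^ (30 * t - 6 * j)) * (2 * D ^ (5 * j + 6)) := Nat.mul_le_mul (by omega) (by omega)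
    _ = 196 * D ^ (30 * t - 6 * j + (5 * j + 6)) := by rw [pow_add]; ring
    _ ≤ 196 * D ^ (30 * t - 1) :=
        Nat.mul_le_mul_left _ (Nat.pow_le_pow_right hD0 (by omega))

private lemma card_upto {D t : ℕ} (hD : 2 ≤ D) (ht : 2 ≤ t) : ∀ i : ℕ, 4 * t + 1 + i + 1 ≤ 6 * t →
    (goodZ (D ^ (30 * t)) (D ^ (6 * (4 * t + 1))) (D ^ (6 * (4 * t + 1 + i)))).card ≤
      i * (196 * D ^ (30 * t - 1)) := by
  intro i
  induction i with
  | zero =>
    intro _
    unfold goodZ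
    simp
  | succ i ih =>
    intro h
    have h1 := ih (by omega)
    have h2 := card_step (D := D) (t := t) (j := 4 * t + 1 + i) hD ht (by omega) (by omega)
    have h3 := (Finset.card_le_card (goodZ_union (N := D ^ (30 * t)) (a := D ^ (6 * (4 * t + 1)))
      (b := D ^ (6 * (4 * t + 1 + i))) (c := D ^ (6 * (4 * t + 1 + i + 1))))).trans
      (Finset.card_union_le _ _)
    have h4 : (i + 1) * (196 * D ^ (30 * t - 1)) =
        i * (196 * D ^ (30 * t - 1)) + 196 * D ^ (30 * t - 1) := by ring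
    rw [h4, show 4 * t + 1 + (i + 1) = 4 * t + 1 + i + 1 by ring]
    omega

/-- all good `z` -/
theorem card_goodZ {D t : ℕ} (hD : 2 ≤ D) (ht : 2 ≤ t) :
    (goodZ (D ^ (30 * t)) 0 (D ^ (36 * t - 6))).card ≤ 393 * t * D ^ (30 * t - 1) := by
  have hD0 : 0 < D := by omega
  have h1 := card_upto (D := D) (t := t) hD ht (2 * t - 2) (by omega)
  have e : 6 * (4 * t + 1 + (2 * t - 2)) = 36 * t - 6 := by omega
  rw [e] at h1
  have h2 := (Finset.card_le_card (goodZ_union (N := D ^ (30 * t)) (a := 0)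
      (b := D ^ (6 * (4 * t + 1))) (c := D ^ (36 * t - 6)))).trans (Finset.card_union_le _ _)
  have h3 : (goodZ (D ^ (30 * t)) 0 (D ^ (6 * (4 * t + 1)))).card ≤ D ^ (30 * t - 1) := by
    refine (Finset.card_filter_le _ _).trans ?_
    rw [Nat.card_Ioc, Nat.sub_zero]
    exact Nat.pow_le_pow_right hD0 (by omega)
  have h4 : (2 * t - 2) * (196 * D ^ (30 * t - 1)) + D ^ (30 * t - 1) ≤
      393 * t * D ^ (30 * t - 1) := by
    have : (2 * t - 2) * 196 + 1 ≤ 393 * t := by omega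
    calc (2 * t - 2) * (196 * D ^ (30 * t - 1)) + D ^ (30 * t - 1)
        = ((2 * t - 2) * 196 + 1) * D ^ (30 * t - 1) := by ring
      _ ≤ 393 * t * D ^ (30 * t - 1) := Nat.mul_le_mul_right _ this
  omega

end PerfectPowerDiff.Dens
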