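import Mathlib

/-!
A point `(y, x)` near the curve `x ^ 2 = y ^ 3` and a rational approximation `a / q` of the square
root of `y`: with `Z = q ^ 2 y - a ^ 2` the integer `3 Z ^ 2 + c` is divisible by `a` for a small `c`.
-/

set_option autoImplicit false

namespace PerfectPowerDiff.Dens

/-- the real estimate -/
private lemma real_bound {a Z m g P : ℝ} (ha : 0 < a) (hZ : 4 * |Z| ≤ a ^ 2)
    (hx : 0 ≤ 2 * a ^ 3 + 3 * a * Z + m)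
    (hid : 4 * a ^ 3 * m + 6 * a * Z * m + m ^ 2 - 3 * a ^ 2 * Z ^ 2 - 4 * Z ^ 3 = g)
    (hg : |g| ≤ 4 * P) (hP : P ≤ a ^ 6) :
    a ^ 2 * |4 * a * m - 3 * Z ^ 2| ≤ 42 * (|Z| ^ 3 + P) := by
  have hP0 : 0 ≤ P := by
    have := abs_nonneg g
    linarith
  set z : ℝ := |Z| with hz
  have hz0 : 0 ≤ z := abs_nonneg Z
  have hz2 : Z ^ 2 = z ^ 2 := (sq_abs Z).symm
  have hz3 : |Z ^ 3| = z ^ 3 := by rw [abs_pow]
  have hZ1 : -z ≤ Z := neg_abs_le Z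
  have hZ2 : Z ≤ z := le_abs_self Z
  have ha2 : 0 < a ^ 2 := by positivity
  have ha3 : 0 < a ^ 3 := by positivity
  set W : ℝ := 4 * a ^ 3 + 6 * a * Z + m with hW
  have hWa : a ^ 3 ≤ W := by
    have h1 : -(3 * a * z) ≤ 3 * a * Z := by nlinarith
    have h2 : 3 * a * z ≤ (3 / 4) * a ^ 3 := by nlinarith
    rw [hW]
    linarith
  have hWm : m * W = 3 * a ^ 2 * Z ^ 2 + 4 * Z ^ 3 + g := by rw [hW]; linarith
  -- the size of `m`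
  have hm1 : a ^ 3 * |m| ≤ 4 * a ^ 2 * z ^ 2 + 4 * P := by
    have h1 : |m| * W = |3 * a ^ 2 * Z ^ 2 + 4 * Z ^ 3 + g| := by
      rw [← hWm, abs_mul, abs_of_pos (lt_of_lt_of_le ha3 hWa)]
    have h2 : |3 * a ^ 2 * Z ^ 2 + 4 * Z ^ 3 + g| ≤ 3 * a ^ 2 * z ^ 2 + 4 * z ^ 3 + 4 * P := by
      calc |3 * a ^ 2 * Z ^ 2 + 4 * Z ^ 3 + g| ≤ |3 * a ^ 2 * Z ^ 2| + |4 * Z ^ 3| + |g| :=
            abs_add_three _ _ _
        _ ≤ 3 * a ^ 2 * z ^ 2 + 4 * z ^ 3 + 4 * P := by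
            rw [abs_of_nonneg (by positivity : 0 ≤ 3 * a ^ 2 * Z ^ 2), hz2, abs_mul, hz3]
            norm_num
            linarith
    have h3 : 4 * z ^ 3 ≤ a ^ 2 * z ^ 2 := by nlinarith [sq_nonneg z]
    have h4 : a ^ 3 * |m| ≤ |m| * W := by
      rw [mul_comm]
      exact mul_le_mul_of_nonneg_left hWa (abs_nonneg m)
    linarith
  have hc : a ^ 2 * (4 * a * m - 3 * Z ^ 2) = 4 * Z ^ 3 - 6 * a * Z * m - m ^ 2 + g := by
    linarith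
  have e1 : a ^ 2 * |4 * a * m - 3 * Z ^ 2| = |4 * Z ^ 3 - 6 * a * Z * m - m ^ 2 + g| := by
    rw [← hc, abs_mul, abs_of_pos ha2]
  rw [e1]
  -- the three terms
  have t1 : 6 * a * z * |m| ≤ 24 * z ^ 3 + 6 * P := by
    have h1 : a ^ 2 * (6 * a * z * |m|) ≤ a ^ 2 * (24 * z ^ 3 + 6 * P) := by
      calc a ^ 2 * (6 * a * z * |m|) = 6 * z * (a ^ 3 * |m|) := by ring
        _ ≤ 6 * z * (4 * a ^ 2 * z ^ 2 + 4 * P) := mul_le_mul_of_nonneg_left hm1 (by positivity)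
        _ = 24 * (a ^ 2 * z ^ 3) + 6 * ((4 * z) * P) := by ring
        _ ≤ 24 * (a ^ 2 * z ^ 3) + 6 * (a ^ 2 * P) := by
            have := mul_le_mul_of_nonneg_right hZ hP0
            linarith
        _ = a ^ 2 * (24 * z ^ 3 + 6 * P) := by ring
    exact le_of_mul_le_mul_left h1 ha2
  have t2 : m ^ 2 ≤ 8 * z ^ 3 + 32 * P := by
    have ha6 : 0 < a ^ 6 := by positivity
    have h1 : a ^ 6 * m ^ 2 ≤ a ^ 6 * (8 * z ^ 3 + 32 * P) := by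
      have h2 : (a ^ 3 * |m|) ^ 2 ≤ (4 * a ^ 2 * z ^ 2 + 4 * P) ^ 2 :=
        pow_le_pow_left₀ (by positivity) hm1 2
      have h3 : (a ^ 3 * |m|) ^ 2 = a ^ 6 * m ^ 2 := by rw [mul_pow, sq_abs]; ring
      have h4 : (4 * a ^ 2 * z ^ 2 + 4 * P) ^ 2 ≤ 32 * (a ^ 4 * z ^ 4) + 32 * P ^ 2 := by
        nlinarith [sq_nonneg (4 * a ^ 2 * z ^ 2 - 4 * P)]
      have h5 : 4 * z * (a ^ 4 * z ^ 3) ≤ a ^ 2 * (a ^ 4 * z ^ 3) :=
        mul_le_mul_of_nonneg_right hZ (by positivity)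
      have h6 : P * P ≤ a ^ 6 * P := mul_le_mul_of_nonneg_right hP hP0
      rw [← h3]
      calc (a ^ 3 * |m|) ^ 2 ≤ 32 * (a ^ 4 * z ^ 4) + 32 * P ^ 2 := h2.trans h4
        _ = 8 * (4 * z * (a ^ 4 * z ^ 3)) + 32 * (P * P) := by ring
        _ ≤ 8 * (a ^ 2 * (a ^ 4 * z ^ 3)) + 32 * (a ^ 6 * P) := by linarith
        _ = a ^ 6 * (8 * z ^ 3 + 32 * P) := by ring
    exact le_of_mul_le_mul_left h1 ha6
  have t3 : |4 * Z ^ 3 - 6 * a * Z * m - m ^ 2 + g| ≤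
      4 * z ^ 3 + 6 * a * z * |m| + m ^ 2 + 4 * P := by
    have h1 : |6 * a * Z * m| = 6 * a * z * |m| := by
      rw [abs_mul, abs_mul, abs_of_pos (by positivity : (0 : ℝ) < 6 * a)]
    have h2 : |4 * Z ^ 3| = 4 * z ^ 3 := by rw [abs_mul, hz3]; norm_num
    have h3 : |m ^ 2| = m ^ 2 := abs_of_nonneg (sq_nonneg m)
    rw [abs_le]
    have i1 := abs_le.1 h2.le
    have i2 := abs_le.1 h1.le
    have i3 := abs_le.1 hg
    have i4 := sq_nonneg m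
    constructor <;> linarith
  have hz3n : 0 ≤ z ^ 3 := by positivity
  linarith

/-- the parametrization of a near point -/
theorem near_param {N Q y x : ℕ} (hQ : 0 < Q) (hxy : x ^ 2 ≠ y ^ 3)
    (h1 : x ^ 2 ≤ y ^ 3 + N) (h2 : y ^ 3 ≤ x ^ 2 + N) (hy : 576 ≤ y) (hyN : 4 * N < y) :
    ∃ q a : ℕ, ∃ Z c : ℤ, 0 < q ∧ q ≤ Q ∧ 0 < a ∧ (q : ℤ) ^ 2 * y = a ^ 2 + Z ∧
      IsCoprime Z (q : ℤ) ∧
      Z ^ 2 * Q ^ 2 ≤ 9 * q ^ 2 * y ∧ ((q : ℤ) ^ 2) ∣ c - Z ^ 2 ∧ (a : ℤ) ∣ 3 * Z ^ 2 + c ∧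
      3 * Z ^ 2 + c ≠ 0 ∧ (q : ℤ) ^ 2 * y * |c| ≤ 84 * (|Z| ^ 3 + q ^ 6 * N) := by
  obtain ⟨s, hs0, hsy⟩ : ∃ s : ℝ, 0 ≤ s ∧ s ^ 2 = y := ⟨√y, by positivity, Real.sq_sqrt (by positivity)⟩
  have hyr : (576 : ℝ) ≤ y := by exact_mod_cast hy
  have hs24 : 24 ≤ s := by
    apply le_of_sq_le_sq _ hs0
    rw [hsy]; linarith
  obtain ⟨r, hr, hrQ⟩ := Real.exists_rat_abs_sub_le_and_den_le s hQ
  set q : ℕ := r.den with hq
  have hq0 : 0 < q := r.den_pos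
  have hq1 : (1 : ℝ) ≤ q := by exact_mod_cast hq0
  have hq0r : (0 : ℝ) < q := by linarith
  have hQ1 : (1 : ℝ) ≤ Q := by exact_mod_cast hQ
  have hrr : (r : ℝ) * q = r.num := by
    rw [hq]
    have := Rat.mul_den_eq_num r
    exact_mod_cast this
  -- `q s - a`
  have hE : |q * s - r.num| ≤ 1 / (Q + 1) := by
    have e : (q : ℝ) * s - r.num = q * (s - r) := by rw [← hrr]; ring
    rw [e, abs_mul, abs_of_pos hq0r]
    calc (q : ℝ) * |s - r| ≤ q * (1 / ((Q + 1) * q)) := mul_le_mul_of_nonneg_left hr hq0r.le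
      _ = 1 / (Q + 1) := by field_simp
  have hE2 : |q * s - r.num| * Q ≤ 1 := by
    calc |q * s - r.num| * Q ≤ 1 / (Q + 1) * Q := mul_le_mul_of_nonneg_right hE (by positivity)
      _ ≤ 1 := by
          rw [div_mul_eq_mul_div, div_le_one (by positivity)]
          linarith
  have hE3 : |q * s - r.num| ≤ 1 / 2 := by
    refine hE.trans ?_
    apply one_div_le_one_div_of_le (by norm_num)
    linarith
  have hqs : 24 ≤ q * s := by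
    calc (24 : ℝ) ≤ 1 * s := by linarith
      _ ≤ q * s := mul_le_mul_of_nonneg_right hq1 hs0
  obtain ⟨g1, g2⟩ := abs_le.1 hE3
  have hnum : 0 < r.num := by
    have : (0 : ℝ) < r.num := by linarith
    exact_mod_cast this
  obtain ⟨a, ha⟩ : ∃ a : ℕ, (a : ℤ) = r.num := ⟨r.num.toNat, Int.toNat_of_nonneg hnum.le⟩
  have har : (r.num : ℝ) = a := by rw [← ha]; norm_num
  rw [har] at hE2 g1 g2
  have ha0 : 0 < a := by omega
  have ha0r : (0 : ℝ) < a := by exact_mod_cast ha0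
  have hcop : Nat.Coprime a q := by
    have h3 := r.reduced
    rw [← ha, Int.natAbs_natCast] at h3
    exact h3
  -- the integers
  set Z : ℤ := (q : ℤ) ^ 2 * y - (a : ℤ) ^ 2 with hZ
  set m : ℤ := 2 * (q : ℤ) ^ 3 * x - 3 * a * Z - 2 * (a : ℤ) ^ 3 with hm
  have hZr : (Z : ℝ) = (q * s - a) * (q * s + a) := by
    rw [hZ]
    push_cast
    rw [← hsy]
    ring
  have hqsa : q * s + a ≤ 3 * (q * s) := by linarith
  have hZabs : |(Z : ℝ)| = |q * s - a| * (q * s + a) := by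
    rw [hZr, abs_mul, abs_of_pos (by linarith : (0 : ℝ) < q * s + a)]
  have hZQ : |(Z : ℝ)| * Q ≤ 3 * (q * s) := by
    calc |(Z : ℝ)| * Q = (|q * s - a| * Q) * (q * s + a) := by rw [hZabs]; ring
      _ ≤ 1 * (q * s + a) := mul_le_mul_of_nonneg_right hE2 (by linarith)
      _ ≤ 3 * (q * s) := by linarith
  have hZh : |(Z : ℝ)| ≤ 1 / 2 * (3 * (q * s)) := by
    rw [hZabs]
    have hE4 : |(q : ℝ) * s - a| ≤ 1 / 2 := abs_le.2 ⟨g1, g2⟩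
    exact mul_le_mul hE4 hqsa (by linarith) (by norm_num)
  have ha34 : 3 / 4 * (q * s) ≤ a := by linarith
  have ha2 : 9 / 16 * (q * s) ^ 2 ≤ (a : ℝ) ^ 2 := by
    calc 9 / 16 * (q * s) ^ 2 = (3 / 4 * (q * s)) ^ 2 := by ring
      _ ≤ (a : ℝ) ^ 2 := pow_le_pow_left₀ (by positivity) ha34 2
  have hqsq : (q * s) ^ 2 = (q : ℝ) ^ 2 * y := by rw [mul_pow, hsy]
  have hay : (q : ℝ) ^ 2 * y ≤ 2 * (a : ℝ) ^ 2 := by
    rw [← hqsq]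
    have := sq_nonneg ((q : ℝ) * s)
    linarith
  have hZa : 4 * |(Z : ℝ)| ≤ (a : ℝ) ^ 2 := by
    have h24 : 24 * (q * s) ≤ (q * s) ^ 2 := by
      rw [sq]
      exact mul_le_mul_of_nonneg_right hqs (by linarith)
    linarith
  -- the identity
  have hidZ : 4 * (a : ℤ) ^ 3 * m + 6 * a * Z * m + m ^ 2 - 3 * (a : ℤ) ^ 2 * Z ^ 2 - 4 * Z ^ 3
      = 4 * (q : ℤ) ^ 6 * ((x : ℤ) ^ 2 - (y : ℤ) ^ 3) := by
    rw [hm, hZ]
    ring
  have hid : 4 * (a : ℝ) ^ 3 * m + 6 * a * Z * m + (m : ℝ) ^ 2 - 3 * (a : ℝ) ^ 2 * (Z : ℝ) ^ 2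
      - 4 * (Z : ℝ) ^ 3 = 4 * (q : ℝ) ^ 6 * ((x : ℝ) ^ 2 - (y : ℝ) ^ 3) := by
    exact_mod_cast hidZ
  have hn' : |(x : ℝ) ^ 2 - (y : ℝ) ^ 3| ≤ N := by
    have i1 : (x : ℝ) ^ 2 ≤ (y : ℝ) ^ 3 + N := by exact_mod_cast h1
    have i2 : (y : ℝ) ^ 3 ≤ (x : ℝ) ^ 2 + N := by exact_mod_cast h2
    rw [abs_le]
    constructor <;> linarith
  have hNr : (0 : ℝ) ≤ N := by positivity
  have hNy : 4 * (N : ℝ) ≤ y := by exact_mod_cast hyN.le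
  have hPa : (q : ℝ) ^ 6 * N ≤ (a : ℝ) ^ 6 := by
    have i1 : ((q : ℝ) ^ 2 * y) ^ 3 ≤ (2 * (a : ℝ) ^ 2) ^ 3 :=
      pow_le_pow_left₀ (by positivity) hay 3
    have i2 : 8 * (N : ℝ) ≤ (y : ℝ) ^ 3 := by
      have k1 : (2 : ℝ) ≤ (y : ℝ) ^ 2 := by
        calc (2 : ℝ) ≤ 576 ^ 2 := by norm_num
          _ ≤ (y : ℝ) ^ 2 := pow_le_pow_left₀ (by norm_num) hyr 2
      calc 8 * (N : ℝ) ≤ 2 * y := by linarith
        _ ≤ (y : ℝ) ^ 2 * y := mul_le_mul_of_nonneg_right k1 (by linarith)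
        _ = (y : ℝ) ^ 3 := by ring
    have i3 : 8 * ((q : ℝ) ^ 6 * N) ≤ (q : ℝ) ^ 6 * (y : ℝ) ^ 3 := by
      calc 8 * ((q : ℝ) ^ 6 * N) = (q : ℝ) ^ 6 * (8 * N) := by ring
        _ ≤ (q : ℝ) ^ 6 * (y : ℝ) ^ 3 := mul_le_mul_of_nonneg_left i2 (by positivity)
    have i4 : ((q : ℝ) ^ 2 * y) ^ 3 = (q : ℝ) ^ 6 * (y : ℝ) ^ 3 := by ring
    have i5 : (2 * (a : ℝ) ^ 2) ^ 3 = 8 * (a : ℝ) ^ 6 := by ring
    rw [i4, i5] at i1
    linarith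
  have hbound := real_bound (a := a) (Z := Z) (m := m)
    (g := 4 * (q : ℝ) ^ 6 * ((x : ℝ) ^ 2 - (y : ℝ) ^ 3)) (P := (q : ℝ) ^ 6 * N) ha0r hZa
    (by
      have : 2 * (a : ℝ) ^ 3 + 3 * a * Z + m = 2 * (q : ℝ) ^ 3 * x := by
        rw [hm]; push_cast; ring
      rw [this]; positivity)
    hid
    (by
      rw [abs_mul, abs_of_pos (by positivity : (0 : ℝ) < 4 * (q : ℝ) ^ 6)]
      calc 4 * (q : ℝ) ^ 6 * |(x : ℝ) ^ 2 - (y : ℝ) ^ 3| ≤ 4 * (q : ℝ) ^ 6 * N :=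
            mul_le_mul_of_nonneg_left hn' (by positivity)
        _ = 4 * ((q : ℝ) ^ 6 * N) := by ring)
    hPa
  have hcopZ : IsCoprime Z (q : ℤ) := by
    have h3 : IsCoprime (a : ℤ) (q : ℤ) := Nat.isCoprime_iff_coprime.2 hcop
    have h4 : IsCoprime (-((a : ℤ) ^ 2) + q * (q * y)) (q : ℤ) :=
      (h3.pow_left (m := 2)).neg_left.add_mul_left_left (q * y)
    have h5 : Z = -((a : ℤ) ^ 2) + q * (q * y) := by rw [hZ]; ring
    rw [h5]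
    exact h4
  refine ⟨q, a, Z, 4 * a * m - 3 * Z ^ 2, hq0, hrQ, ha0, by rw [hZ]; ring, hcopZ, ?_, ?_, ?_, ?_, ?_⟩
  · -- size of Z
    have i1 : (|(Z : ℝ)| * Q) ^ 2 ≤ (3 * (q * s)) ^ 2 := pow_le_pow_left₀ (by positivity) hZQ 2
    have i2 : (Z : ℝ) ^ 2 * (Q : ℝ) ^ 2 ≤ 9 * (q : ℝ) ^ 2 * y := by
      calc (Z : ℝ) ^ 2 * (Q : ℝ) ^ 2 = (|(Z : ℝ)| * Q) ^ 2 := by rw [mul_pow, sq_abs]
        _ ≤ (3 * (q * s)) ^ 2 := i1
        _ = 9 * (q : ℝ) ^ 2 * y := by rw [mul_pow, hqsq]; ring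
    exact_mod_cast i2
  · refine ⟨8 * a * q * x - 4 * (a : ℤ) ^ 2 * y - 4 * (q : ℤ) ^ 2 * (y : ℤ) ^ 2, ?_⟩
    rw [hm, hZ]
    ring
  · exact ⟨4 * m, by ring⟩
  · -- nonzero
    intro h0
    have h3 : 4 * (a : ℤ) * m = 0 := by linarith
    have hm0 : m = 0 := by
      rcases mul_eq_zero.1 h3 with h4 | h4
      · exfalso
        have : (0 : ℤ) < a := by exact_mod_cast ha0
        omega
      · exact h4
    -- q = 1
    have hdvd : ((q : ℤ) ^ 2) ∣ (a : ℤ) ^ 3 := by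
      refine ⟨3 * a * y - 2 * q * x, ?_⟩
      have h5 : 2 * (q : ℤ) ^ 3 * x - 3 * a * ((q : ℤ) ^ 2 * y - (a : ℤ) ^ 2) - 2 * (a : ℤ) ^ 3 = 0 := by
        rw [hm, hZ] at hm0
        exact hm0
      linarith
    have hdvd' : q ^ 2 ∣ a ^ 3 := by exact_mod_cast hdvd
    have hcop' : Nat.Coprime (q ^ 2) (a ^ 3) := (hcop.symm.pow_left 2).pow_right 3
    have hq2 : q ^ 2 = 1 := Nat.Coprime.eq_one_of_dvd hcop' hdvd'
    have hqone : q = 1 := by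
      rcases Nat.lt_or_ge q 2 with h6 | h6
      · omega
      · exfalso
        have := Nat.pow_le_pow_left h6 2
        omega
    rw [hm0] at hid
    rw [hqone] at hid hay
    have hid2 : (Z : ℝ) ^ 2 * (3 * (a : ℝ) ^ 2 + 4 * Z) = -(4 * ((x : ℝ) ^ 2 - (y : ℝ) ^ 3)) := by
      push_cast at hid
      linear_combination (-1) * hid
    have hZne : Z ≠ 0 := by
      intro hZ0
      rw [hZ0] at hid2
      have h7 : (x : ℝ) ^ 2 = (y : ℝ) ^ 3 := by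
        push_cast at hid2
        linear_combination (1 / 4) * hid2
      exact hxy (by exact_mod_cast h7)
    have hZ1 : (1 : ℝ) ≤ (Z : ℝ) ^ 2 := by
      have : 1 ≤ Z ^ 2 := by
        have := sq_nonneg Z
        have h8 : Z ^ 2 ≠ 0 := pow_ne_zero 2 hZne
        omega
      exact_mod_cast this
    have h9 : (y : ℝ) ≤ 3 * (a : ℝ) ^ 2 + 4 * Z := by
      have := neg_abs_le (Z : ℝ)
      push_cast at hay
      linarith
    have h10 : (y : ℝ) ≤ (Z : ℝ) ^ 2 * (3 * (a : ℝ) ^ 2 + 4 * Z) := by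
      calc (y : ℝ) ≤ 1 * (3 * (a : ℝ) ^ 2 + 4 * Z) := by linarith
        _ ≤ (Z : ℝ) ^ 2 * (3 * (a : ℝ) ^ 2 + 4 * Z) :=
            mul_le_mul_of_nonneg_right hZ1 (by linarith)
    rw [hid2] at h10
    have h11 := (abs_le.1 hn').1
    have h12 : 4 * (N : ℝ) < y := by exact_mod_cast hyN
    linarith
  · -- size of c
    have i1 : (q : ℝ) ^ 2 * y * |4 * (a : ℝ) * m - 3 * (Z : ℝ) ^ 2| ≤
        84 * (|(Z : ℝ)| ^ 3 + (q : ℝ) ^ 6 * N) := by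
      have := mul_le_mul_of_nonneg_right hay (abs_nonneg (4 * (a : ℝ) * m - 3 * (Z : ℝ) ^ 2))
      linarith
    have i2 : (((q : ℤ) ^ 2 * y * |4 * (a : ℤ) * m - 3 * Z ^ 2| : ℤ) : ℝ) ≤
        ((84 * (|Z| ^ 3 + (q : ℤ) ^ 6 * N) : ℤ) : ℝ) := by
      push_cast
      exact i1
    exact_mod_cast i2

end PerfectPowerDiff.Dens
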