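import Pool.Agent.Lib.MP_cb2e5b_nt.DivB

/-!
The `z` in a range with a square near, but different from, `z ^ 3`.
-/

set_option autoImplicit false

open scoped Classical in
/-- the `z` in `(a, b]` with a square near `z ^ 3`, different from `z ^ 3` -/
noncomputable def PerfectPowerDiff.Dens.goodW (N a b : ℕ) : Finset ℕ :=
  (Finset.Ioc a b).filter (fun z => ∃ x : ℕ, x ^ 2 ≠ z ^ 3 ∧ x ^ 2 ≤ z ^ 3 + N ∧ z ^ 3 ≤ x ^ 2 + N)

namespace PerfectPowerDiff.Dens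

theorem mem_goodW {N a b z : ℕ} : z ∈ goodW N a b ↔ (a < z ∧ z ≤ b) ∧
    ∃ x : ℕ, x ^ 2 ≠ z ^ 3 ∧ x ^ 2 ≤ z ^ 3 + N ∧ z ^ 3 ≤ x ^ 2 + N := by
  unfold goodW
  simp only [Finset.mem_filter, Finset.mem_Ioc]

end PerfectPowerDiff.Dens
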