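import Mathlib

/-!
The number of square roots modulo `q ^ 2`, prime to `q`, in an interval.
-/

set_option autoImplicit false

open scoped Classical in
/-- the `Z` with `|Z| ≤ M`, `Z ^ 2 ≡ c mod q ^ 2`, prime to `q` -/
noncomputable def PerfectPowerDiff.Dens.RR (q M : ℕ) (c : ℤ) : Finset ℤ :=
  (Finset.Icc (-(M : ℤ)) M).filter (fun Z => (q : ℤ) ^ 2 ∣ c - Z ^ 2 ∧ IsCoprime Z (q : ℤ))

namespace PerfectPowerDiff.Dens

theorem mem_RR {q M : ℕ} {c Z : ℤ} : Z ∈ RR q M c ↔ (-(M : ℤ) ≤ Z ∧ Z ≤ M) ∧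
    (q : ℤ) ^ 2 ∣ c - Z ^ 2 ∧ IsCoprime Z (q : ℤ) := by
  unfold RR
  simp only [Finset.mem_filter, Finset.mem_Icc]

private lemma card_modulus {F : Finset ℤ} {M r : ℕ} (hr : 0 < r)
    (hF : ∀ Z ∈ F, -(M : ℤ) ≤ Z ∧ Z ≤ M)
    (hmod : ∀ Z1 ∈ F, ∀ Z2 ∈ F, (r : ℤ) ∣ 2 * (Z1 - Z2)) : F.card ≤ 4 * M / r + 1 := by
  rcases F.eq_empty_or_nonempty with rfl | hne
  · simp
  · have hr' : (0 : ℤ) < r := by exact_mod_cast hr
    have hm := F.min'_mem hne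
    set Z0 := F.min' hne with hZ0
    have key : ∀ Z ∈ F, 0 ≤ 2 * (Z - Z0) / r ∧ 2 * (Z - Z0) / r ≤ ((4 * M / r : ℕ) : ℤ) ∧
        2 * (Z - Z0) = r * (2 * (Z - Z0) / r) := by
      intro Z hZ
      have h1 : Z0 ≤ Z := F.min'_le Z hZ
      have h2 := hF Z hZ
      have h3 := hF Z0 hm
      refine ⟨Int.ediv_nonneg (by omega) hr'.le, ?_, ?_⟩
      · have h4 : 2 * (Z - Z0) ≤ 4 * (M : ℤ) := by omega
        have h5 := Int.ediv_le_ediv hr' h4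
        refine h5.trans (le_of_eq ?_)
        push_cast
        rfl
      · exact (Int.mul_ediv_cancel' (hmod Z hZ Z0 hm)).symm
    have h := Finset.card_le_card_of_injOn (s := F) (t := Finset.range (4 * M / r + 1))
      (fun Z => (2 * (Z - Z0) / r).toNat) (by
        intro Z hZ
        obtain ⟨k1, k2, _⟩ := key Z hZ
        simp only [Finset.coe_range, Set.mem_Iio]
        omega) (by
        intro Z1 hZ1 Z2 hZ2 heq
        obtain ⟨k1, _, k3⟩ := key Z1 hZ1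
        obtain ⟨l1, _, l3⟩ := key Z2 hZ2
        simp only at heq
        have h5 : 2 * (Z1 - Z0) / r = 2 * (Z2 - Z0) / (r : ℤ) := by omega
        rw [h5, ← l3] at k3
        omega)
    rwa [Finset.card_range] at h

/-- two roots with the same greatest common divisor -/
private lemma two_roots {q : ℕ} {c Z0 Z1 Z2 : ℤ} (hq : 0 < q)
    (h0 : (q : ℤ) ^ 2 ∣ c - Z0 ^ 2) (h1 : (q : ℤ) ^ 2 ∣ c - Z1 ^ 2)
    (h2 : (q : ℤ) ^ 2 ∣ c - Z2 ^ 2) (hc : IsCoprime Z1 (q : ℤ))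
    (hg : Int.gcd ((q : ℤ) ^ 2) (Z1 - Z0) = Int.gcd ((q : ℤ) ^ 2) (Z2 - Z0)) :
    (((q ^ 2 : ℕ)) : ℤ) ∣ 2 * (Z1 - Z2) := by
  have hq' : (0 : ℤ) < q := by exact_mod_cast hq
  have hq2 : (0 : ℤ) < (q : ℤ) ^ 2 := by positivity
  -- for each root: `q ^ 2 = s d`, `d ∣ u`, `s ∣ v`
  have key : ∀ Z : ℤ, (q : ℤ) ^ 2 ∣ c - Z ^ 2 → ∃ s : ℤ,
      (q : ℤ) ^ 2 = s * (Int.gcd ((q : ℤ) ^ 2) (Z - Z0) : ℤ) ∧ s ∣ Z + Z0 ∧
        ((Int.gcd ((q : ℤ) ^ 2) (Z - Z0) : ℤ)) ∣ Z - Z0 := by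
    intro Z hZ
    have hpos : 0 < Int.gcd ((q : ℤ) ^ 2) (Z - Z0) := Int.gcd_pos_of_ne_zero_left _ hq2.ne'
    obtain ⟨s, u, hsu, e1, e2⟩ := Int.exists_gcd_one hpos
    refine ⟨s, e1, ?_, ⟨u, by rw [mul_comm]; exact e2⟩⟩
    have h3 : (q : ℤ) ^ 2 ∣ (Z - Z0) * (Z + Z0) := by
      have h4 := dvd_sub h0 hZ
      have h5 : c - Z0 ^ 2 - (c - Z ^ 2) = (Z - Z0) * (Z + Z0) := by ring
      rwa [h5] at h4
    have hd : (0 : ℤ) < (Int.gcd ((q : ℤ) ^ 2) (Z - Z0) : ℤ) := by exact_mod_cast hpos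
    have h6 : s ∣ u * (Z + Z0) := by
      obtain ⟨w, hw⟩ := h3
      refine ⟨w, ?_⟩
      have h7 : (Int.gcd ((q : ℤ) ^ 2) (Z - Z0) : ℤ) * (u * (Z + Z0)) =
          (Int.gcd ((q : ℤ) ^ 2) (Z - Z0) : ℤ) * (s * w) := by
        calc (Int.gcd ((q : ℤ) ^ 2) (Z - Z0) : ℤ) * (u * (Z + Z0))
            = (u * (Int.gcd ((q : ℤ) ^ 2) (Z - Z0) : ℤ)) * (Z + Z0) := by ring
          _ = (Z - Z0) * (Z + Z0) := by rw [← e2]
          _ = (q : ℤ) ^ 2 * w := hw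
          _ = (s * (Int.gcd ((q : ℤ) ^ 2) (Z - Z0) : ℤ)) * w := by rw [← e1]
          _ = (Int.gcd ((q : ℤ) ^ 2) (Z - Z0) : ℤ) * (s * w) := by ring
      exact mul_left_cancel₀ hd.ne' h7
    have hcop : IsCoprime s u := Int.isCoprime_iff_gcd_eq_one.2 hsu
    exact hcop.dvd_of_dvd_mul_left h6
  obtain ⟨s1, a1, b1, c1⟩ := key Z1 h1
  obtain ⟨s2, a2, b2, c2⟩ := key Z2 h2
  rw [← hg] at a2 c2
  set d : ℤ := (Int.gcd ((q : ℤ) ^ 2) (Z1 - Z0) : ℤ) with hd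
  have hd0 : d ≠ 0 := by
    intro h
    rw [h, mul_zero] at a1
    exact hq2.ne' a1
  have hss : s1 = s2 := by
    have : s1 * d = s2 * d := by rw [← a1, ← a2]
    exact mul_right_cancel₀ hd0 this
  rw [← hss] at b2
  -- both divide the difference
  have hsw : s1 ∣ Z1 - Z2 := by
    have := dvd_sub b1 b2
    rwa [show Z1 + Z0 - (Z2 + Z0) = Z1 - Z2 by ring] at this
  have hdw : d ∣ Z1 - Z2 := by
    have := dvd_sub c1 c2
    rwa [show Z1 - Z0 - (Z2 - Z0) = Z1 - Z2 by ring] at this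
  obtain ⟨α, β, hαβ⟩ := hc.pow_right (n := 2)
  obtain ⟨t1, ht1⟩ := c1
  obtain ⟨v1, hv1⟩ := b1
  have h2Z : 2 * Z1 = d * t1 + s1 * v1 := by rw [← ht1, ← hv1]; ring
  have hsum : 2 * (Z1 - Z2) = α * t1 * (d * (Z1 - Z2)) + α * v1 * (s1 * (Z1 - Z2)) +
      2 * β * ((q : ℤ) ^ 2 * (Z1 - Z2)) := by
    have h3 : 2 * (Z1 - Z2) = 2 * (α * Z1 + β * (q : ℤ) ^ 2) * (Z1 - Z2) := by rw [hαβ]; ring
    rw [h3]
    calc 2 * (α * Z1 + β * (q : ℤ) ^ 2) * (Z1 - Z2)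
        = α * (2 * Z1) * (Z1 - Z2) + 2 * β * ((q : ℤ) ^ 2 * (Z1 - Z2)) := by ring
      _ = α * (d * t1 + s1 * v1) * (Z1 - Z2) + 2 * β * ((q : ℤ) ^ 2 * (Z1 - Z2)) := by rw [h2Z]
      _ = _ := by ring
  push_cast
  rw [hsum]
  refine dvd_add (dvd_add ?_ ?_) ?_
  · refine Dvd.dvd.mul_left ?_ _
    rw [a1, mul_comm s1 d]
    exact mul_dvd_mul_left d hsw
  · refine Dvd.dvd.mul_left ?_ _
    rw [a1]
    exact mul_dvd_mul_left s1 hdw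
  · exact Dvd.dvd.mul_left (dvd_mul_right _ _) _

theorem card_RR {q M : ℕ} (c : ℤ) (hq : 0 < q) :
    (RR q M c).card ≤ (4 * M / q ^ 2 + 1) * (q ^ 2).divisors.card := by
  rcases (RR q M c).eq_empty_or_nonempty with h | ⟨Z0, hZ0⟩
  · rw [h]; simp
  · rw [mem_RR] at hZ0
    have hq2 : 0 < q ^ 2 := pow_pos hq 2
    have h1 := Finset.card_le_mul_card_image (f := fun Z => Int.gcd ((q : ℤ) ^ 2) (Z - Z0))
      (RR q M c) (4 * M / q ^ 2 + 1) (by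
        intro d _
        apply card_modulus hq2
        · intro Z hZ
          rw [Finset.mem_filter, mem_RR] at hZ
          exact hZ.1.1
        · intro Z1 hZ1 Z2 hZ2
          rw [Finset.mem_filter, mem_RR] at hZ1 hZ2
          exact two_roots hq hZ0.2.1 hZ1.1.2.1 hZ2.1.2.1 hZ1.1.2.2 (hZ1.2.trans hZ2.2.symm))
    refine h1.trans (Nat.mul_le_mul_left _ (Finset.card_le_card ?_))
    intro d hd
    rw [Finset.mem_image] at hd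
    obtain ⟨Z, _, rfl⟩ := hd
    rw [Nat.mem_divisors]
    refine ⟨?_, hq2.ne'⟩
    have := Int.gcd_dvd_left (a := (q : ℤ) ^ 2) (b := Z - Z0)
    exact_mod_cast this

end PerfectPowerDiff.Dens
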