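import Pool.Agent.Lib.MP_cb2e5b_nt.Dens.Sets
import Pool.Agent.Lib.MP_cb2e5b_nt.Dens.Param
import Pool.Agent.Lib.MP_cb2e5b_nt.Dens.Roots
import Pool.Agent.Lib.MP_cb2e5b_nt.Dens.Near

/-!
The number of `y` in `(D ^ (2 j), D ^ (2 j + 2)]` with a square near `y ^ 3`, `j ≤ 30 t - 15`.
-/

set_option autoImplicit false

namespace PerfectPowerDiff.Dens

/-- the divisor bound -/
theorem div_bound (t : ℕ) (ht : 2 ≤ t) : ∃ G : ℕ, ∀ D T : ℕ, 2 ≤ D → T ≤ 2400 * D ^ (60 * t) →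
    T.divisors.card ≤ G * D := by
  have ht0 : (0 : ℝ) < 60 * t := by positivity
  obtain ⟨C, hC1, hC⟩ := card_divisors_le_rpow (η := 1 / (60 * (t : ℝ))) (by positivity)
  obtain ⟨G, hG⟩ := exists_nat_ge (C * 2400)
  refine ⟨G, ?_⟩
  intro D T hD hT
  rcases Nat.eq_zero_or_pos T with rfl | hT0
  · simp
  have hD0 : (0 : ℝ) < D := by
    have : 0 < D := by omega
    exact_mod_cast this
  have h1 := hC T (by omega)
  have h2 : (T : ℝ) ≤ 2400 * (D : ℝ) ^ (60 * t) := by exact_mod_cast hT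
  have h3 : (T : ℝ) ^ (1 / (60 * (t : ℝ))) ≤ 2400 * D := by
    calc (T : ℝ) ^ (1 / (60 * (t : ℝ))) ≤ (2400 * (D : ℝ) ^ (60 * t)) ^ (1 / (60 * (t : ℝ))) :=
          Real.rpow_le_rpow (by positivity) h2 (by positivity)
      _ = (2400 : ℝ) ^ (1 / (60 * (t : ℝ))) * D := by
          rw [Real.mul_rpow (by norm_num) (by positivity)]
          congr 1
          rw [← Real.rpow_natCast, ← Real.rpow_mul hD0.le]
          push_cast
          rw [show (60 * (t : ℝ)) * (1 / (60 * t)) = 1 by field_simp, Real.rpow_one]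
      _ ≤ 2400 * D := by
          apply mul_le_mul_of_nonneg_right _ hD0.le
          calc (2400 : ℝ) ^ (1 / (60 * (t : ℝ))) ≤ (2400 : ℝ) ^ (1 : ℝ) := by
                apply Real.rpow_le_rpow_of_exponent_le (by norm_num)
                rw [div_le_one ht0]
                have : (2 : ℝ) ≤ t := by exact_mod_cast ht
                linarith
            _ = 2400 := Real.rpow_one _
  have h4 : (T.divisors.card : ℝ) ≤ ((G * D : ℕ) : ℝ) := by
    push_cast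
    calc (T.divisors.card : ℝ) ≤ C * (T : ℝ) ^ (1 / (60 * (t : ℝ))) := h1
      _ ≤ C * (2400 * D) := mul_le_mul_of_nonneg_left h3 (by linarith)
      _ = (C * 2400) * D := by ring
      _ ≤ G * D := mul_le_mul_of_nonneg_right hG hD0.le
  exact_mod_cast h4

/-- the `y` belonging to `q` -/
noncomputable def YV (q M B : ℕ) : Finset ℕ :=
  (Finset.Icc (-(B : ℤ)) B).biUnion (fun c => (RR q M c).biUnion (fun Z =>
    ((3 * Z ^ 2 + c).natAbs).divisors.image (fun a : ℕ => (((a : ℤ) ^ 2 + Z) / (q : ℤ) ^ 2).toNat)))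

theorem card_YV {q M B d1 d2 : ℕ} (hq : 0 < q) (hd1 : (q ^ 2).divisors.card ≤ d1)
    (hd2 : ∀ c Z : ℤ, |c| ≤ B → |Z| ≤ M → ((3 * Z ^ 2 + c).natAbs).divisors.card ≤ d2) :
    (YV q M B).card ≤ (2 * B + 1) * ((4 * M / q ^ 2 + 1) * d1 * d2) := by
  unfold YV
  refine (Finset.card_biUnion_le_card_mul _ _ ((4 * M / q ^ 2 + 1) * d1 * d2) ?_).trans ?_
  · intro c hc
    rw [Finset.mem_Icc] at hc
    refine (Finset.card_biUnion_le_card_mul _ _ d2 ?_).trans ?_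
    · intro Z hZ
      rw [mem_RR] at hZ
      exact Finset.card_image_le.trans (hd2 c Z (abs_le.2 hc) (abs_le.2 hZ.1))
    · exact Nat.mul_le_mul_right _ ((card_RR c hq).trans (Nat.mul_le_mul_left _ hd1))
  · apply Nat.mul_le_mul_right
    rw [Int.card_Icc]
    omega

theorem mem_YV {q a y M B : ℕ} {Z c : ℤ} (hq : 0 < q) (hy : (q : ℤ) ^ 2 * y = a ^ 2 + Z)
    (hcop : IsCoprime Z (q : ℤ)) (hZ : |Z| ≤ M) (hB : |c| ≤ B) (hc : ((q : ℤ) ^ 2) ∣ c - Z ^ 2)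
    (ha : (a : ℤ) ∣ 3 * Z ^ 2 + c) (h0 : 3 * Z ^ 2 + c ≠ 0) : y ∈ YV q M B := by
  have hq2 : (0 : ℤ) < (q : ℤ) ^ 2 := by
    have : (0 : ℤ) < q := by exact_mod_cast hq
    positivity
  unfold YV
  rw [Finset.mem_biUnion]
  refine ⟨c, Finset.mem_Icc.2 (abs_le.1 hB), ?_⟩
  rw [Finset.mem_biUnion]
  refine ⟨Z, mem_RR.2 ⟨abs_le.1 hZ, hc, hcop⟩, ?_⟩
  rw [Finset.mem_image]
  refine ⟨a, ?_, ?_⟩
  · rw [Nat.mem_divisors]
    refine ⟨?_, Int.natAbs_ne_zero.2 h0⟩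
    have := Int.natAbs_dvd_natAbs.2 ha
    rwa [Int.natAbs_natCast] at this
  · rw [← hy, Int.mul_ediv_cancel_left _ hq2.ne']
    exact Int.toNat_natCast y

/-- the parameters of a near point in the range -/
private lemma range_param {D t j h e y : ℕ} (hD : 2 ≤ D) (ht : 2 ≤ t) (hj : 16 * t ≤ j)
    (hh1 : 3 * h ≤ j) (he1 : j + 3 ≤ 3 * h + e) (he2 : 30 * t + 3 * h ≤ 2 * j + e)
    (hy : y ∈ goodW (D ^ (30 * t)) (D ^ (2 * j)) (D ^ (2 * j + 2))) :
    ∃ q : ℕ, 0 < q ∧ q ≤ D ^ h ∧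
      y ∈ YV q (3 * q * D ^ (j + 1 - h)) (2352 * q * D ^ e) := by
  rw [mem_goodW] at hy
  obtain ⟨⟨hy1, hy2⟩, x, hxy, hx1, hx2⟩ := hy
  have hD0 : 0 < D := by omega
  have hy576 : 576 ≤ y := by
    have : 576 ≤ D ^ (2 * j) := by
      calc 576 ≤ 2 ^ 64 := by norm_num
        _ ≤ 2 ^ (2 * j) := Nat.pow_le_pow_right (by norm_num) (by omega)
        _ ≤ D ^ (2 * j) := Nat.pow_le_pow_left hD _
    omega
  have hyN : 4 * D ^ (30 * t) < y := by
    refine lt_of_le_of_lt ?_ hy1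
    calc 4 * D ^ (30 * t) ≤ D ^ 2 * D ^ (30 * t) :=
          Nat.mul_le_mul_right _ (by have := Nat.pow_le_pow_left hD 2; omega)
      _ = D ^ (2 + 30 * t) := (pow_add _ _ _).symm
      _ ≤ D ^ (2 * j) := Nat.pow_le_pow_right hD0 (by omega)
  obtain ⟨q, a, Z, c, hq0, hqQ, ha0, hyq, hcop, hZ2, hcq, hac, hne, hcb⟩ :=
    near_param (Q := D ^ h) (pow_pos hD0 h) hxy hx1 hx2 hy576 hyN
  refine ⟨q, hq0, hqQ, ?_⟩
  -- size of Z
  set zn := Z.natAbs with hzn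
  set cn := c.natAbs with hcn
  have hzabs : |Z| = (zn : ℤ) := by rw [hzn]; exact (Int.natCast_natAbs Z).symm
  have hcabs : |c| = (cn : ℤ) := by rw [hcn]; exact (Int.natCast_natAbs c).symm
  have hZn : zn ≤ 3 * q * D ^ (j + 1 - h) := by
    have i1 : zn ^ 2 * (D ^ h) ^ 2 ≤ 9 * q ^ 2 * y := by
      have : ((zn : ℤ)) ^ 2 * ((D ^ h : ℕ) : ℤ) ^ 2 ≤ 9 * (q : ℤ) ^ 2 * y := by
        rw [hzn, Int.natCast_natAbs, sq_abs]
        exact hZ2
      exact_mod_cast this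
    have i2 : (zn * D ^ h) ^ 2 ≤ (3 * q * D ^ (j + 1)) ^ 2 := by
      calc (zn * D ^ h) ^ 2 = zn ^ 2 * (D ^ h) ^ 2 := by ring
        _ ≤ 9 * q ^ 2 * y := i1
        _ ≤ 9 * q ^ 2 * D ^ (2 * j + 2) := Nat.mul_le_mul_left _ hy2
        _ = 9 * q ^ 2 * (D ^ (j + 1)) ^ 2 := by
            rw [← pow_mul D, show (j + 1) * 2 = 2 * j + 2 by ring]
        _ = (3 * q * D ^ (j + 1)) ^ 2 := by ring
    have i3 := le_of_sq_le i2
    have i4 : 3 * q * D ^ (j + 1) = 3 * q * D ^ (j + 1 - h) * D ^ h := by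
      rw [mul_assoc (3 * q), ← pow_add, show j + 1 - h + h = j + 1 by omega]
    rw [i4] at i3
    exact Nat.le_of_mul_le_mul_right i3 (pow_pos hD0 h)
  -- size of c
  have hcn' : cn ≤ 2352 * q * D ^ e := by
    have i1 : q ^ 2 * y * cn ≤ 84 * (zn ^ 3 + q ^ 6 * D ^ (30 * t)) := by
      have : (q : ℤ) ^ 2 * y * (cn : ℤ) ≤ 84 * ((zn : ℤ) ^ 3 + (q : ℤ) ^ 6 * ((D ^ (30 * t) : ℕ) : ℤ)) := by
        rw [← hzabs, ← hcabs]
        exact hcb
      exact_mod_cast this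
    have i2 : zn ^ 3 ≤ 27 * q ^ 3 * D ^ (2 * j + e) := by
      calc zn ^ 3 ≤ (3 * q * D ^ (j + 1 - h)) ^ 3 := Nat.pow_le_pow_left hZn 3
        _ = 27 * q ^ 3 * (D ^ (j + 1 - h)) ^ 3 := by ring
        _ = 27 * q ^ 3 * D ^ ((j + 1 - h) * 3) := by rw [← pow_mul D]
        _ ≤ 27 * q ^ 3 * D ^ (2 * j + e) :=
            Nat.mul_le_mul_left _ (Nat.pow_le_pow_right hD0 (by omega))
    have i3 : q ^ 6 * D ^ (30 * t) ≤ q ^ 3 * D ^ (2 * j + e) := by
      calc q ^ 6 * D ^ (30 * t) = q ^ 3 * (q ^ 3 * D ^ (30 * t)) := by ring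
        _ ≤ q ^ 3 * ((D ^ h) ^ 3 * D ^ (30 * t)) :=
            Nat.mul_le_mul_left _ (Nat.mul_le_mul_right _ (Nat.pow_le_pow_left hqQ 3))
        _ = q ^ 3 * D ^ (h * 3 + 30 * t) := by rw [← pow_mul, ← pow_add]
        _ ≤ q ^ 3 * D ^ (2 * j + e) :=
            Nat.mul_le_mul_left _ (Nat.pow_le_pow_right hD0 (by omega))
    have i4 : (q ^ 2 * D ^ (2 * j)) * cn ≤ (q ^ 2 * D ^ (2 * j)) * (2352 * q * D ^ e) := by
      calc (q ^ 2 * D ^ (2 * j)) * cn ≤ (q ^ 2 * y) * cn :=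
            Nat.mul_le_mul_right _ (Nat.mul_le_mul_left _ hy1.le)
        _ ≤ 84 * (zn ^ 3 + q ^ 6 * D ^ (30 * t)) := i1
        _ ≤ 84 * (27 * q ^ 3 * D ^ (2 * j + e) + q ^ 3 * D ^ (2 * j + e)) :=
            Nat.mul_le_mul_left _ (Nat.add_le_add i2 i3)
        _ = (q ^ 2 * D ^ (2 * j)) * (2352 * q * D ^ e) := by rw [pow_add]; ring
    exact Nat.le_of_mul_le_mul_left i4 (Nat.mul_pos (pow_pos hq0 2) (pow_pos hD0 _))
  refine mem_YV hq0 hyq hcop ?_ ?_ hcq hac hne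
  · rw [hzabs]
    exact_mod_cast hZn
  · rw [hcabs]
    exact_mod_cast hcn'

/-- one range -/
theorem card_rangeV {D t j G : ℕ} (hD : 2 ≤ D) (ht : 2 ≤ t) (hj1 : 16 * t ≤ j)
    (hj2 : j + 15 ≤ 30 * t)
    (hG : ∀ T : ℕ, T ≤ 2400 * D ^ (60 * t) → T.divisors.card ≤ G * D) :
    (goodW (D ^ (30 * t)) (D ^ (2 * j)) (D ^ (2 * j + 2))).card ≤
      61165 * G ^ 2 * D ^ (30 * t - 1) := by
  have hD0 : 0 < D := by omega
  obtain ⟨h, hh1, hh2⟩ : ∃ h : ℕ, 3 * h + 5 ≤ j ∧ j ≤ 3 * h + 7 := ⟨(j - 5) / 3, by omega, by omega⟩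
  obtain ⟨e, he1, he2, he3⟩ : ∃ e : ℕ, j + 3 ≤ 3 * h + e ∧ 30 * t + 3 * h ≤ 2 * j + e ∧
      e + j + 4 ≤ 30 * t := ⟨max 10 (30 * t + 3 * h - 2 * j), by omega, by omega, by omega⟩
  have hsub : goodW (D ^ (30 * t)) (D ^ (2 * j)) (D ^ (2 * j + 2)) ⊆
      (Finset.Icc 1 (D ^ h)).biUnion
        (fun q => YV q (3 * q * D ^ (j + 1 - h)) (2352 * q * D ^ e)) := by
    intro y hy
    obtain ⟨q, hq0, hqQ, hmem⟩ := range_param hD ht hj1 (by omega) he1 he2 hy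
    rw [Finset.mem_biUnion]
    exact ⟨q, Finset.mem_Icc.2 ⟨hq0, hqQ⟩, hmem⟩
  refine (Finset.card_le_card hsub).trans ?_
  have hcell : ∀ q ∈ Finset.Icc 1 (D ^ h),
      (YV q (3 * q * D ^ (j + 1 - h)) (2352 * q * D ^ e)).card ≤
        61165 * D ^ (e + (j + 1 - h)) * ((G * D) * (G * D)) := by
    intro q hq
    rw [Finset.mem_Icc] at hq
    obtain ⟨hq0, hqQ⟩ := hq
    refine (card_YV (d1 := G * D) (d2 := G * D) hq0 ?_ ?_).trans ?_
    · apply hG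
      calc q ^ 2 ≤ (D ^ h) ^ 2 := Nat.pow_le_pow_left hqQ 2
        _ = D ^ (h * 2) := by rw [← pow_mul]
        _ ≤ D ^ (60 * t) := Nat.pow_le_pow_right hD0 (by omega)
        _ ≤ 2400 * D ^ (60 * t) := Nat.le_mul_of_pos_left _ (by norm_num)
    · intro c Z hc hZ
      apply hG
      have hZ' : Z.natAbs ≤ 3 * q * D ^ (j + 1 - h) := by
        have := hZ; rw [← Int.natCast_natAbs] at this; exact_mod_cast this
      have hc' : c.natAbs ≤ 2352 * q * D ^ e := by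
        have := hc; rw [← Int.natCast_natAbs] at this; exact_mod_cast this
      have t1 : (3 * Z ^ 2 + c).natAbs ≤ 3 * Z.natAbs ^ 2 + c.natAbs := by
        refine (Int.natAbs_add_le _ _).trans (Nat.add_le_add ?_ le_rfl)
        rw [Int.natAbs_mul, Int.natAbs_pow]; norm_num
      have t2 : 3 * Z.natAbs ^ 2 ≤ 27 * D ^ (60 * t) := by
        calc 3 * Z.natAbs ^ 2 ≤ 3 * (3 * q * D ^ (j + 1 - h)) ^ 2 :=
              Nat.mul_le_mul_left _ (Nat.pow_le_pow_left hZ' 2)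
          _ = 27 * (q * D ^ (j + 1 - h)) ^ 2 := by ring
          _ ≤ 27 * (D ^ h * D ^ (j + 1 - h)) ^ 2 :=
              Nat.mul_le_mul_left _ (Nat.pow_le_pow_left (Nat.mul_le_mul_right _ hqQ) 2)
          _ = 27 * D ^ ((h + (j + 1 - h)) * 2) := by rw [← pow_add, ← pow_mul]
          _ ≤ 27 * D ^ (60 * t) := Nat.mul_le_mul_left _ (Nat.pow_le_pow_right hD0 (by omega))
      have t3 : c.natAbs ≤ 2352 * D ^ (60 * t) := by
        calc c.natAbs ≤ 2352 * q * D ^ e := hc'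
          _ ≤ 2352 * D ^ h * D ^ e :=
              Nat.mul_le_mul_right _ (Nat.mul_le_mul_left _ hqQ)
          _ = 2352 * D ^ (h + e) := by rw [pow_add]; ring
          _ ≤ 2352 * D ^ (60 * t) := Nat.mul_le_mul_left _ (Nat.pow_le_pow_right hD0 (by omega))
      omega
    · -- the product
      have hqD : 1 ≤ q * D ^ e := Nat.mul_pos hq0 (pow_pos hD0 _)
      have u1 : 2 * (2352 * q * D ^ e) + 1 ≤ 4705 * (q * D ^ e) := by
        calc 2 * (2352 * q * D ^ e) + 1 = 4704 * (q * D ^ e) + 1 := by ring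
          _ ≤ 4705 * (q * D ^ e) := by omega
      have u2 : q * (4 * (3 * q * D ^ (j + 1 - h)) / q ^ 2 + 1) ≤ 13 * D ^ (j + 1 - h) := by
        have e1 : 4 * (3 * q * D ^ (j + 1 - h)) / q ^ 2 = 12 * D ^ (j + 1 - h) / q := by
          rw [sq, show 4 * (3 * q * D ^ (j + 1 - h)) = q * (12 * D ^ (j + 1 - h)) by ring]
          exact Nat.mul_div_mul_left _ _ hq0
        rw [e1]
        have e2 : q * (12 * D ^ (j + 1 - h) / q) ≤ 12 * D ^ (j + 1 - h) := Nat.mul_div_le _ q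
        have e3 : q ≤ D ^ (j + 1 - h) := hqQ.trans (Nat.pow_le_pow_right hD0 (by omega))
        calc q * (12 * D ^ (j + 1 - h) / q + 1) = q * (12 * D ^ (j + 1 - h) / q) + q := by ring
          _ ≤ 12 * D ^ (j + 1 - h) + D ^ (j + 1 - h) := Nat.add_le_add e2 e3
          _ = 13 * D ^ (j + 1 - h) := by ring
      calc (2 * (2352 * q * D ^ e) + 1) *
            ((4 * (3 * q * D ^ (j + 1 - h)) / q ^ 2 + 1) * (G * D) * (G * D))
          ≤ (4705 * (q * D ^ e)) *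
            ((4 * (3 * q * D ^ (j + 1 - h)) / q ^ 2 + 1) * (G * D) * (G * D)) :=
            Nat.mul_le_mul_right _ u1
        _ = 4705 * D ^ e * (q * (4 * (3 * q * D ^ (j + 1 - h)) / q ^ 2 + 1)) *
              ((G * D) * (G * D)) := by ring
        _ ≤ 4705 * D ^ e * (13 * D ^ (j + 1 - h)) * ((G * D) * (G * D)) :=
            Nat.mul_le_mul_right _ (Nat.mul_le_mul_left _ u2)
        _ = 61165 * D ^ (e + (j + 1 - h)) * ((G * D) * (G * D)) := by
            rw [pow_add D e]; ring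
  refine (Finset.card_biUnion_le_card_mul _ _ _ hcell).trans ?_
  rw [Nat.card_Icc, Nat.add_sub_cancel]
  calc D ^ h * (61165 * D ^ (e + (j + 1 - h)) * ((G * D) * (G * D)))
      = 61165 * G ^ 2 * D ^ (h + (e + (j + 1 - h)) + 2) := by
        rw [pow_add D _ 2, pow_add D h]; ring
    _ ≤ 61165 * G ^ 2 * D ^ (30 * t - 1) :=
        Nat.mul_le_mul_left _ (Nat.pow_le_pow_right hD0 (by omega))

theorem goodV_union {N a b c : ℕ} : goodW N a c ⊆ goodW N a b ∪ goodW N b c := by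
  intro z hz
  rw [mem_goodW] at hz
  rw [Finset.mem_union, mem_goodW, mem_goodW]
  by_cases h : z ≤ b
  · exact Or.inl ⟨⟨hz.1.1, h⟩, hz.2⟩
  · exact Or.inr ⟨⟨not_le.1 h, hz.1.2⟩, hz.2⟩

private lemma card_uptoV {D t G : ℕ} (hD : 2 ≤ D) (ht : 2 ≤ t)
    (hG : ∀ T : ℕ, T ≤ 2400 * D ^ (60 * t) → T.divisors.card ≤ G * D) :
    ∀ i : ℕ, 16 * t + i + 14 ≤ 30 * t →
    (goodW (D ^ (30 * t)) (D ^ (32 * t)) (D ^ (2 * (16 * t + i)))).card ≤
      i * (61165 * G ^ 2 * D ^ (30 * t - 1)) := by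
  intro i
  induction i with
  | zero =>
    intro _
    have : goodW (D ^ (30 * t)) (D ^ (32 * t)) (D ^ (2 * (16 * t + 0))) = ∅ := by
      rw [Finset.eq_empty_iff_forall_notMem]
      intro z hz
      rw [mem_goodW, show 2 * (16 * t + 0) = 32 * t by ring] at hz
      omega
    rw [this]
    simp
  | succ i ih =>
    intro h
    have h1 := ih (by omega)
    have h2 := card_rangeV (D := D) (t := t) (j := 16 * t + i) (G := G) hD ht (by omega) (by omega) hG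
    have h3 := (Finset.card_le_card (goodV_union (N := D ^ (30 * t)) (a := D ^ (32 * t))
      (b := D ^ (2 * (16 * t + i))) (c := D ^ (2 * (16 * t + i) + 2)))).trans
      (Finset.card_union_le _ _)
    have h4 : (i + 1) * (61165 * G ^ 2 * D ^ (30 * t - 1)) =
        i * (61165 * G ^ 2 * D ^ (30 * t - 1)) + 61165 * G ^ 2 * D ^ (30 * t - 1) := by ring
    rw [h4, show 2 * (16 * t + (i + 1)) = 2 * (16 * t + i) + 2 by ring]
    omega

/-- all near points with `D ^ (32 t) < y ≤ D ^ (60 t - 28)` -/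
theorem card_goodV {D t G : ℕ} (hD : 2 ≤ D) (ht : 2 ≤ t)
    (hG : ∀ T : ℕ, T ≤ 2400 * D ^ (60 * t) → T.divisors.card ≤ G * D) :
    (goodW (D ^ (30 * t)) (D ^ (32 * t)) (D ^ (60 * t - 28))).card ≤
      856310 * t * G ^ 2 * D ^ (30 * t - 1) := by
  have h1 := card_uptoV hD ht hG (14 * t - 14) (by omega)
  rw [show 2 * (16 * t + (14 * t - 14)) = 60 * t - 28 by omega] at h1
  refine h1.trans ?_
  calc (14 * t - 14) * (61165 * G ^ 2 * D ^ (30 * t - 1)) ≤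
        (14 * t) * (61165 * G ^ 2 * D ^ (30 * t - 1)) := Nat.mul_le_mul_right _ (by omega)
    _ = 856310 * t * G ^ 2 * D ^ (30 * t - 1) := by ring

end PerfectPowerDiff.Dens
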