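import Pool.Agent.Lib.MP_cb2e5b_nt.Dens.Cells

/-!
The set of the `n ≤ D ^ (30 t)`, `n ≡ 2 mod 4`, with a low representation as a difference of two
perfect powers is small.
-/

set_option autoImplicit false

namespace PerfectPowerDiff.Dens

private lemma nine_sq (D t a b : ℕ) (h : 2 * a + b = 60 * t) :
    9 * (D ^ (30 * t)) ^ 2 = (3 * D ^ a) ^ 2 * D ^ b := by
  calc 9 * (D ^ (30 * t)) ^ 2 = 9 * D ^ (30 * t * 2) := by rw [← pow_mul]
    _ = 9 * D ^ (2 * a + b) := by rw [show 30 * t * 2 = 2 * a + b by omega]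
    _ = (3 * D ^ a) ^ 2 * D ^ b := by rw [pow_add, pow_mul' D 2 a]; ring

/-- exponent `3`, base at most `D ^ (20 t)` -/
theorem card_low3 {p D t : ℕ} (hp : 2 ≤ p) (hD : 2 ≤ D) (ht : 2 ≤ t) :
    ((Finset.range (D ^ (20 * t) + 1)).biUnion (VV p 3 (D ^ (30 * t)))).card ≤
      16 * D ^ (30 * t - 1) := by
  have hD0 : 0 < D := by omega
  have hN : 0 < D ^ (30 * t) := pow_pos hD0 _
  have hM : ∀ (w m : ℕ), D ^ m < w → D ^ (3 * m) ≤ w ^ 3 := by
    intro w m hw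
    calc D ^ (3 * m) = (D ^ m) ^ 3 := by rw [← pow_mul, mul_comm]
      _ ≤ w ^ 3 := Nat.pow_le_pow_left hw.le 3
  have h2N : ∀ (w m : ℕ), 12 * t ≤ m → D ^ m < w → 2 * D ^ (30 * t) ≤ w ^ 3 := by
    intro w m hm hw
    refine le_trans ?_ (hM w m hw)
    calc 2 * D ^ (30 * t) ≤ D * D ^ (30 * t) := Nat.mul_le_mul_right _ hD
      _ = D ^ (30 * t + 1) := by rw [pow_succ, mul_comm]
      _ ≤ D ^ (3 * m) := Nat.pow_le_pow_right hD0 (by omega)
  have h1 : ∀ w, w ≤ D ^ (12 * t) → (VV p 3 (D ^ (30 * t)) w).card ≤ 2 * D ^ (15 * t) + 1 := by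
    intro w _
    apply card_VV_le
    apply card_ZZ_gen hp
    calc 2 * D ^ (30 * t) ≤ 4 * D ^ (30 * t) := Nat.mul_le_mul_right _ (by norm_num)
      _ = (2 * D ^ (15 * t)) ^ 2 := by rw [mul_pow, ← pow_mul]; ring_nf
  have h2 : ∀ w, D ^ (12 * t) < w → w ≤ D ^ (16 * t) → (VV p 3 (D ^ (30 * t)) w).card ≤
      3 * D ^ (12 * t) + 1 := by
    intro w hw _
    apply card_VV_le
    apply card_ZZ_big hp hN (h2N w _ le_rfl hw)
    calc 8 * (D ^ (30 * t)) ^ 2 ≤ 9 * (D ^ (30 * t)) ^ 2 := Nat.mul_le_mul_right _ (by norm_num)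
      _ = (3 * D ^ (12 * t)) ^ 2 * D ^ (3 * (12 * t)) := nine_sq _ _ _ _ (by ring)
      _ ≤ (3 * D ^ (12 * t)) ^ 2 * w ^ 3 := Nat.mul_le_mul_left _ (hM w _ hw)
  have h3 : ∀ w, D ^ (16 * t) < w → w ≤ D ^ (20 * t) → (VV p 3 (D ^ (30 * t)) w).card ≤
      3 * D ^ (6 * t) + 1 := by
    intro w hw _
    apply card_VV_le
    apply card_ZZ_big hp hN (h2N w _ (by omega) hw)
    calc 8 * (D ^ (30 * t)) ^ 2 ≤ 9 * (D ^ (30 * t)) ^ 2 := Nat.mul_le_mul_right _ (by norm_num)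
      _ = (3 * D ^ (6 * t)) ^ 2 * D ^ (3 * (16 * t)) := nine_sq _ _ _ _ (by ring)
      _ ≤ (3 * D ^ (6 * t)) ^ 2 * w ^ 3 := Nat.mul_le_mul_left _ (hM w _ hw)
  refine (card_three h1 h2 h3).trans ?_
  have e12 : 1 ≤ D ^ (12 * t) := Nat.one_le_pow _ _ hD0
  have e15 : 1 ≤ D ^ (15 * t) := Nat.one_le_pow _ _ hD0
  have e6 : 1 ≤ D ^ (6 * t) := Nat.one_le_pow _ _ hD0
  have i1 : (D ^ (12 * t) + 1) * (2 * D ^ (15 * t) + 1) ≤ 6 * D ^ (30 * t - 1) := by
    calc (D ^ (12 * t) + 1) * (2 * D ^ (15 * t) + 1) ≤ (2 * D ^ (12 * t)) * (3 * D ^ (15 * t)) :=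
          Nat.mul_le_mul (by omega) (by omega)
      _ = 6 * D ^ (12 * t + 15 * t) := by rw [pow_add]; ring
      _ ≤ 6 * D ^ (30 * t - 1) := Nat.mul_le_mul_left _ (Nat.pow_le_pow_right hD0 (by omega))
  have i2 : D ^ (16 * t) * (3 * D ^ (12 * t) + 1) ≤ 4 * D ^ (30 * t - 1) := by
    calc D ^ (16 * t) * (3 * D ^ (12 * t) + 1) ≤ D ^ (16 * t) * (4 * D ^ (12 * t)) :=
          Nat.mul_le_mul_left _ (by omega)
      _ = 4 * D ^ (16 * t + 12 * t) := by rw [pow_add]; ring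
      _ ≤ 4 * D ^ (30 * t - 1) := Nat.mul_le_mul_left _ (Nat.pow_le_pow_right hD0 (by omega))
  have i3 : D ^ (20 * t) * (3 * D ^ (6 * t) + 1) ≤ 4 * D ^ (30 * t - 1) := by
    calc D ^ (20 * t) * (3 * D ^ (6 * t) + 1) ≤ D ^ (20 * t) * (4 * D ^ (6 * t)) :=
          Nat.mul_le_mul_left _ (by omega)
      _ = 4 * D ^ (20 * t + 6 * t) := by rw [pow_add]; ring
      _ ≤ 4 * D ^ (30 * t - 1) := Nat.mul_le_mul_left _ (Nat.pow_le_pow_right hD0 (by omega))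
  omega

/-- exponent at least `4`, base at most `D ^ (30 t - 1)` -/
theorem card_four {p q D t : ℕ} (hp : 2 ≤ p) (hq : 4 ≤ q) (hD : 2 ≤ D) (ht : 2 ≤ t) :
    ((Finset.range (D ^ (30 * t - 1) + 1)).biUnion (VV p q (D ^ (30 * t)))).card ≤
      16 * D ^ (30 * t - 1) := by
  have hD0 : 0 < D := by omega
  have hN : 0 < D ^ (30 * t) := pow_pos hD0 _
  have hM : ∀ (w m : ℕ), D ^ m < w → D ^ (4 * m) ≤ w ^ q := by
    intro w m hw
    calc D ^ (4 * m) = (D ^ m) ^ 4 := by rw [← pow_mul, mul_comm]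
      _ ≤ w ^ 4 := Nat.pow_le_pow_left hw.le 4
      _ ≤ w ^ q := Nat.pow_le_pow_right (by omega) hq
  have h2N : ∀ (w m : ℕ), 12 * t ≤ m → D ^ m < w → 2 * D ^ (30 * t) ≤ w ^ q := by
    intro w m hm hw
    refine le_trans ?_ (hM w m hw)
    calc 2 * D ^ (30 * t) ≤ D * D ^ (30 * t) := Nat.mul_le_mul_right _ hD
      _ = D ^ (30 * t + 1) := by rw [pow_succ, mul_comm]
      _ ≤ D ^ (4 * m) := Nat.pow_le_pow_right hD0 (by omega)
  have h1 : ∀ w, w ≤ D ^ (12 * t) → (VV p q (D ^ (30 * t)) w).card ≤ 2 * D ^ (15 * t) + 1 := by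
    intro w _
    apply card_VV_le
    apply card_ZZ_gen hp
    calc 2 * D ^ (30 * t) ≤ 4 * D ^ (30 * t) := Nat.mul_le_mul_right _ (by norm_num)
      _ = (2 * D ^ (15 * t)) ^ 2 := by rw [mul_pow, ← pow_mul]; ring_nf
  have h2 : ∀ w, D ^ (12 * t) < w → w ≤ D ^ (15 * t) → (VV p q (D ^ (30 * t)) w).card ≤
      3 * D ^ (6 * t) + 1 := by
    intro w hw _
    apply card_VV_le
    apply card_ZZ_big hp hN (h2N w _ le_rfl hw)
    calc 8 * (D ^ (30 * t)) ^ 2 ≤ 9 * (D ^ (30 * t)) ^ 2 := Nat.mul_le_mul_right _ (by norm_num)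
      _ = (3 * D ^ (6 * t)) ^ 2 * D ^ (4 * (12 * t)) := nine_sq _ _ _ _ (by ring)
      _ ≤ (3 * D ^ (6 * t)) ^ 2 * w ^ q := Nat.mul_le_mul_left _ (hM w _ hw)
  have h3 : ∀ w, D ^ (15 * t) < w → w ≤ D ^ (30 * t - 1) → (VV p q (D ^ (30 * t)) w).card ≤
      3 + 1 := by
    intro w hw _
    apply card_VV_le
    apply card_ZZ_big hp hN (h2N w _ (by omega) hw)
    calc 8 * (D ^ (30 * t)) ^ 2 ≤ 9 * (D ^ (30 * t)) ^ 2 := Nat.mul_le_mul_right _ (by norm_num)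
      _ = 3 ^ 2 * D ^ (4 * (15 * t)) := by
          rw [← pow_mul]; ring_nf
      _ ≤ 3 ^ 2 * w ^ q := Nat.mul_le_mul_left _ (hM w _ hw)
  refine (card_three h1 h2 h3).trans ?_
  have e12 : 1 ≤ D ^ (12 * t) := Nat.one_le_pow _ _ hD0
  have e15 : 1 ≤ D ^ (15 * t) := Nat.one_le_pow _ _ hD0
  have e6 : 1 ≤ D ^ (6 * t) := Nat.one_le_pow _ _ hD0
  have i1 : (D ^ (12 * t) + 1) * (2 * D ^ (15 * t) + 1) ≤ 6 * D ^ (30 * t - 1) := by
    calc (D ^ (12 * t) + 1) * (2 * D ^ (15 * t) + 1) ≤ (2 * D ^ (12 * t)) * (3 * D ^ (15 * t)) :=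
          Nat.mul_le_mul (by omega) (by omega)
      _ = 6 * D ^ (12 * t + 15 * t) := by rw [pow_add]; ring
      _ ≤ 6 * D ^ (30 * t - 1) := Nat.mul_le_mul_left _ (Nat.pow_le_pow_right hD0 (by omega))
  have i2 : D ^ (15 * t) * (3 * D ^ (6 * t) + 1) ≤ 4 * D ^ (30 * t - 1) := by
    calc D ^ (15 * t) * (3 * D ^ (6 * t) + 1) ≤ D ^ (15 * t) * (4 * D ^ (6 * t)) :=
          Nat.mul_le_mul_left _ (by omega)
      _ = 4 * D ^ (15 * t + 6 * t) := by rw [pow_add]; ring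
      _ ≤ 4 * D ^ (30 * t - 1) := Nat.mul_le_mul_left _ (Nat.pow_le_pow_right hD0 (by omega))
  omega

/-- exponent pair `(2, 3)`, base of the cube in `(D ^ (20 t), D ^ (36 t - 6)]` -/
theorem card_high3 {D t : ℕ} (hD : 2 ≤ D) (ht : 2 ≤ t) :
    ((goodZ (D ^ (30 * t)) (D ^ (20 * t)) (D ^ (36 * t - 6))).biUnion
      (VV 2 3 (D ^ (30 * t)))).card ≤ 1572 * t * D ^ (30 * t - 1) := by
  have hD0 : 0 < D := by omega
  have hN : 0 < D ^ (30 * t) := pow_pos hD0 _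
  have hsub : goodZ (D ^ (30 * t)) (D ^ (20 * t)) (D ^ (36 * t - 6)) ⊆
      goodZ (D ^ (30 * t)) 0 (D ^ (36 * t - 6)) := by
    intro z hz
    unfold goodZ at hz ⊢
    rw [Finset.mem_filter, Finset.mem_Ioc] at hz ⊢
    exact ⟨⟨by omega, hz.1.2⟩, hz.2⟩
  have h1 := (Finset.card_le_card hsub).trans (card_goodZ hD ht)
  refine (Finset.card_biUnion_le_card_mul _ _ 4 ?_).trans ?_
  · intro w hw
    unfold goodZ at hw
    rw [Finset.mem_filter, Finset.mem_Ioc] at hw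
    have hM : D ^ (60 * t) ≤ w ^ 3 := by
      calc D ^ (60 * t) = (D ^ (20 * t)) ^ 3 := by rw [← pow_mul]; ring_nf
        _ ≤ w ^ 3 := Nat.pow_le_pow_left hw.1.1.le 3
    have h2N : 2 * D ^ (30 * t) ≤ w ^ 3 := by
      refine le_trans ?_ hM
      calc 2 * D ^ (30 * t) ≤ D * D ^ (30 * t) := Nat.mul_le_mul_right _ hD
        _ = D ^ (30 * t + 1) := by rw [pow_succ, mul_comm]
        _ ≤ D ^ (60 * t) := Nat.pow_le_pow_right hD0 (by omega)
    have hc : (ZZ 2 (w ^ 3) (D ^ (30 * t))).card ≤ 3 + 1 := by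
      apply card_ZZ_big le_rfl hN h2N
      calc 8 * (D ^ (30 * t)) ^ 2 ≤ 9 * (D ^ (30 * t)) ^ 2 := Nat.mul_le_mul_right _ (by norm_num)
        _ = 3 ^ 2 * D ^ (60 * t) := by rw [← pow_mul]; ring_nf
        _ ≤ 3 ^ 2 * w ^ 3 := Nat.mul_le_mul_left _ hM
    exact card_VV_le hc
  · calc (goodZ (D ^ (30 * t)) (D ^ (20 * t)) (D ^ (36 * t - 6))).card * 4
        ≤ (393 * t * D ^ (30 * t - 1)) * 4 := Nat.mul_le_mul_right _ h1
      _ = 1572 * t * D ^ (30 * t - 1) := by ring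

/-- the bad integers up to `D ^ (30 t)` -/
def Bad (D t Λ : ℕ) : Finset ℕ :=
  ((Finset.Ico 2 Λ) ×ˢ (Finset.Ico 4 Λ)).biUnion
      (fun u => (Finset.range (D ^ (30 * t - 1) + 1)).biUnion (VV u.1 u.2 (D ^ (30 * t)))) ∪
    ((Finset.range (D ^ (20 * t) + 1)).biUnion (VV 2 3 (D ^ (30 * t))) ∪
      ((Finset.range (D ^ (20 * t) + 1)).biUnion (VV 3 3 (D ^ (30 * t))) ∪
        (goodZ (D ^ (30 * t)) (D ^ (20 * t)) (D ^ (36 * t - 6))).biUnion (VV 2 3 (D ^ (30 * t)))))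

theorem card_Bad {D t Λ : ℕ} (hD : 2 ≤ D) (ht : 2 ≤ t) :
    (Bad D t Λ).card ≤ (16 * Λ ^ 2 + 1588 * t) * D ^ (30 * t - 1) := by
  have h1 : (((Finset.Ico 2 Λ) ×ˢ (Finset.Ico 4 Λ)).biUnion
      (fun u => (Finset.range (D ^ (30 * t - 1) + 1)).biUnion
        (VV u.1 u.2 (D ^ (30 * t))))).card ≤ Λ ^ 2 * (16 * D ^ (30 * t - 1)) := by
    refine (Finset.card_biUnion_le_card_mul _ _ (16 * D ^ (30 * t - 1)) ?_).trans ?_
    · rintro ⟨p, q⟩ hu
      rw [Finset.mem_product, Finset.mem_Ico, Finset.mem_Ico] at hu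
      exact card_four hu.1.1 hu.2.1 hD ht
    · apply Nat.mul_le_mul_right
      rw [Finset.card_product, Nat.card_Ico, Nat.card_Ico, sq]
      exact Nat.mul_le_mul (by omega) (by omega)
  have h2 := card_low3 (p := 2) le_rfl hD ht
  have h3 := card_low3 (p := 3) (by norm_num) hD ht
  have h4 := card_high3 hD ht
  unfold Bad
  refine (Finset.card_union_le _ _).trans ?_
  refine (Nat.add_le_add h1 ((Finset.card_union_le _ _).trans (Nat.add_le_add h2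
    ((Finset.card_union_le _ _).trans (Nat.add_le_add h3 h4))))).trans ?_
  have e : (16 * Λ ^ 2 + 1588 * t) * D ^ (30 * t - 1) =
      Λ ^ 2 * (16 * D ^ (30 * t - 1)) + (1572 * t * D ^ (30 * t - 1) +
        16 * t * D ^ (30 * t - 1)) := by ring
  have e2 : 16 * 2 * D ^ (30 * t - 1) ≤ 16 * t * D ^ (30 * t - 1) :=
    Nat.mul_le_mul_right _ (Nat.mul_le_mul_left _ ht)
  omega

/-- membership: low representations of `n ≡ 2 mod 4` -/
theorem mem_Bad {D t Λ n x y k l : ℕ} (hD : 2 ≤ D) (ht : 2 ≤ t) (hΛ5 : 5 ≤ Λ)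
    (hn : n ≤ D ^ (30 * t)) (hn4 : n % 4 = 2)
    (hx : 0 < x) (hy : 0 < y) (hk : 2 ≤ k) (hl : 2 ≤ l) (h : n + y ^ l = x ^ k)
    (hΛ : x ^ k < 2 ^ Λ)
    (h4 : 4 ≤ max k l → x ^ k ≤ (D ^ (30 * t - 1)) ^ (max k l) ∨ y = 1)
    (h3 : x ^ k ≤ (D ^ (36 * t - 6)) ^ 3 ∨ y = 1 ∨ 4 ≤ max k l) : n ∈ Bad D t Λ := by
  have hD0 : 0 < D := by omega
  have hx2 : 2 ≤ x := by
    by_contra hcon
    have : x = 1 := by omega
    rw [this, one_pow] at h
    have := Nat.one_le_pow l y hy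
    omega
  have hyx : y ^ l < x ^ k := by omega
  have hexp : ∀ u m : ℕ, 2 ≤ u → u ^ m ≤ x ^ k → m < Λ := by
    intro u m hu hum
    have h1 : 2 ^ m < 2 ^ Λ := lt_of_le_of_lt ((Nat.pow_le_pow_left hu m).trans hum) hΛ
    exact (Nat.pow_lt_pow_iff_right (by norm_num)).1 h1
  -- large exponents
  have main4 : ∀ p q z w : ℕ, 2 ≤ p → p < Λ → 4 ≤ q → q < Λ → w ≤ D ^ (30 * t - 1) →
      (n + w ^ q = z ^ p ∨ n + z ^ p = w ^ q) → n ∈ Bad D t Λ := by
    intro p q z w hp hpL hq hqL hw hnz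
    unfold Bad
    rw [Finset.mem_union]
    left
    rw [Finset.mem_biUnion]
    refine ⟨(p, q), ?_, ?_⟩
    · rw [Finset.mem_product, Finset.mem_Ico, Finset.mem_Ico]
      exact ⟨⟨hp, hpL⟩, ⟨hq, hqL⟩⟩
    · rw [Finset.mem_biUnion]
      refine ⟨w, ?_, mem_VV_of (by omega) hn hnz⟩
      rw [Finset.mem_range]
      omega
  -- the types (2, 3) and (3, 2)
  have main23 : ∀ z w : ℕ, w ^ 3 ≤ (D ^ (36 * t - 6)) ^ 3 →
      (n + w ^ 3 = z ^ 2 ∨ n + z ^ 2 = w ^ 3) → n ∈ Bad D t Λ := by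
    intro z w hw hnz
    have hw' : w ≤ D ^ (36 * t - 6) := by
      by_contra hcon
      have := Nat.pow_lt_pow_left (not_le.1 hcon) (show 3 ≠ 0 by norm_num)
      omega
    have hmem := mem_VV_of (p := 2) (by norm_num) hn hnz
    unfold Bad
    rw [Finset.mem_union, Finset.mem_union, Finset.mem_union]
    by_cases hws : w ≤ D ^ (20 * t)
    · refine Or.inr (Or.inl ?_)
      rw [Finset.mem_biUnion]
      exact ⟨w, by rw [Finset.mem_range]; omega, hmem⟩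
    · refine Or.inr (Or.inr (Or.inr ?_))
      rw [Finset.mem_biUnion]
      refine ⟨w, ?_, hmem⟩
      unfold goodZ
      rw [Finset.mem_filter, Finset.mem_Ioc]
      refine ⟨⟨by omega, hw'⟩, ?_⟩
      unfold VV at hmem
      rw [Finset.mem_image] at hmem
      obtain ⟨v, hv, _⟩ := hmem
      exact ⟨v, hv⟩
  have hNbig : 2 * D ^ (30 * t) ≤ (D ^ (20 * t)) ^ 3 := by
    calc 2 * D ^ (30 * t) ≤ D * D ^ (30 * t) := Nat.mul_le_mul_right _ hD
      _ = D ^ (30 * t + 1) := by rw [pow_succ, mul_comm]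
      _ ≤ D ^ (20 * t * 3) := Nat.pow_le_pow_right hD0 (by omega)
      _ = (D ^ (20 * t)) ^ 3 := by rw [pow_mul]
  have hN1 : 1 ≤ D ^ (30 * t) := Nat.one_le_pow _ _ hD0
  rcases Nat.lt_or_ge y 2 with hy1 | hy2
  · -- y = 1
    have hy' : y = 1 := by omega
    rw [hy', one_pow] at h
    rcases Nat.lt_or_ge k 4 with hk4 | hk4
    · interval_cases k
      · -- x ^ 2 = n + 1
        exfalso
        have h5 : x ^ 2 % 4 = 3 := by omega
        have h6 : x % 4 = 0 ∨ x % 4 = 1 ∨ x % 4 = 2 ∨ x % 4 = 3 := by omega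
        rcases h6 with h6 | h6 | h6 | h6 <;> simp [Nat.pow_mod, h6] at h5
      · -- x ^ 3 = n + 1
        refine main23 1 x ?_ (Or.inr (by rw [one_pow]; exact h))
        calc x ^ 3 ≤ 2 * D ^ (30 * t) := by omega
          _ ≤ (D ^ (20 * t)) ^ 3 := hNbig
          _ ≤ (D ^ (36 * t - 6)) ^ 3 :=
              Nat.pow_le_pow_left (Nat.pow_le_pow_right hD0 (by omega)) 3
    · refine main4 2 k 1 x le_rfl (by omega) hk4 (hexp x k hx2 le_rfl) ?_
        (Or.inr (by rw [one_pow]; exact h))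
      by_contra hcon
      have h5 : (D ^ (30 * t - 1)) ^ 4 < x ^ 4 := Nat.pow_lt_pow_left (not_le.1 hcon) (by norm_num)
      have h6 : x ^ 4 ≤ x ^ k := Nat.pow_le_pow_right hx hk4
      have h7 : 2 * D ^ (30 * t) ≤ (D ^ (30 * t - 1)) ^ 4 := by
        calc 2 * D ^ (30 * t) ≤ D * D ^ (30 * t) := Nat.mul_le_mul_right _ hD
          _ = D ^ (30 * t + 1) := by rw [pow_succ, mul_comm]
          _ ≤ D ^ ((30 * t - 1) * 4) := Nat.pow_le_pow_right hD0 (by omega)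
          _ = (D ^ (30 * t - 1)) ^ 4 := by rw [pow_mul]
      omega
  · have hkΛ := hexp x k hx2 le_rfl
    have hlΛ := hexp y l hy2 hyx.le
    have hbase : ∀ u m B : ℕ, m ≠ 0 → u ^ m ≤ B ^ m → u ≤ B := by
      intro u m B hm hu
      by_contra hcon
      have := Nat.pow_lt_pow_left (not_le.1 hcon) hm
      omega
    rcases Nat.lt_or_ge (max k l) 4 with hm | hm
    · -- exponents 2, 3
      have hk3 : k < 4 := lt_of_le_of_lt (le_max_left _ _) hm
      have hl3 : l < 4 := lt_of_le_of_lt (le_max_right _ _) hm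
      have h3' : x ^ k ≤ (D ^ (36 * t - 6)) ^ 3 := by
        rcases h3 with h5 | h5 | h5
        · exact h5
        · omega
        · omega
      interval_cases k <;> interval_cases l
      · exfalso
        have h5 : (n + y ^ 2) % 4 = x ^ 2 % 4 := by rw [h]
        have h6 : x % 4 = 0 ∨ x % 4 = 1 ∨ x % 4 = 2 ∨ x % 4 = 3 := by omega
        have h7 : y % 4 = 0 ∨ y % 4 = 1 ∨ y % 4 = 2 ∨ y % 4 = 3 := by omega
        rcases h6 with h6 | h6 | h6 | h6 <;> rcases h7 with h7 | h7 | h7 | h7 <;>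
          simp [Nat.pow_mod, Nat.add_mod, h6, h7, hn4] at h5
      · exact main23 x y (hyx.le.trans h3') (Or.inl h)
      · exact main23 y x h3' (Or.inr h)
      · -- two cubes
        have hyx' : y + 1 ≤ x := by
          by_contra hcon
          have := Nat.pow_le_pow_left (show x ≤ y by omega) 3
          omega
        have h5 : (y + 1) ^ 3 ≤ x ^ 3 := Nat.pow_le_pow_left hyx' 3
        have h6 : (y + 1) ^ 3 = y ^ 3 + 3 * y ^ 2 + 3 * y + 1 := by ring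
        have h7 : y ^ 2 ≤ (D ^ (20 * t)) ^ 2 := by
          calc y ^ 2 ≤ D ^ (30 * t) := by omega
            _ ≤ D ^ (20 * t * 2) := Nat.pow_le_pow_right hD0 (by omega)
            _ = (D ^ (20 * t)) ^ 2 := by rw [pow_mul]
        have h8 := le_of_sq_le h7
        unfold Bad
        rw [Finset.mem_union, Finset.mem_union, Finset.mem_union]
        refine Or.inr (Or.inr (Or.inl ?_))
        rw [Finset.mem_biUnion]
        exact ⟨y, by rw [Finset.mem_range]; omega, mem_VV_of (by norm_num) hn (Or.inl h)⟩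
    · -- a large exponent
      have h4' : x ^ k ≤ (D ^ (30 * t - 1)) ^ (max k l) := by
        rcases h4 hm with h5 | h5
        · exact h5
        · omega
      rcases le_total l k with hlk | hkl
      · rw [max_eq_left hlk] at h4' hm
        exact main4 l k y x hl hlΛ hm hkΛ (hbase x k _ (by omega) h4') (Or.inr h)
      · rw [max_eq_right hkl] at h4' hm
        exact main4 k l x y hk hkΛ hm hlΛ (hbase y l _ (by omega) (hyx.le.trans h4')) (Or.inl h)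

end PerfectPowerDiff.Dens
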