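import Pool.Agent.Lib.MP_cb2e5b_nt.Dens.Ranges

/-!
The set of the `n ≤ D ^ (30 t)`, `n ≡ 2 mod 4`, with a low representation as a difference of two
perfect powers is small: squares near cubes up to height `D ^ (180 t - 84)`.
-/

set_option autoImplicit false

namespace PerfectPowerDiff.Dens

/-- the `n = |w ^ 2 - z ^ 3|` with `z` in the high ranges -/
theorem card_highV {D t G : ℕ} (hD : 2 ≤ D) (ht : 2 ≤ t)
    (hG : ∀ T : ℕ, T ≤ 2400 * D ^ (60 * t) → T.divisors.card ≤ G * D) :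
    ((goodW (D ^ (30 * t)) (D ^ (32 * t)) (D ^ (60 * t - 28))).biUnion
      (VV 2 3 (D ^ (30 * t)))).card ≤ 3425240 * t * G ^ 2 * D ^ (30 * t - 1) := by
  have hD0 : 0 < D := by omega
  have hN : 0 < D ^ (30 * t) := pow_pos hD0 _
  have h1 := card_goodV hD ht hG
  refine (Finset.card_biUnion_le_card_mul _ _ 4 ?_).trans ?_
  · intro w hw
    rw [mem_goodW] at hw
    have hM : D ^ (60 * t) ≤ w ^ 3 := by
      calc D ^ (60 * t) ≤ D ^ (32 * t * 3) := Nat.pow_le_pow_right hD0 (by omega)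
        _ = (D ^ (32 * t)) ^ 3 := by rw [pow_mul]
        _ ≤ w ^ 3 := Nat.pow_le_pow_left hw.1.1.le 3
    have h2N : 2 * D ^ (30 * t) ≤ w ^ 3 := by
      refine le_trans ?_ hM
      calc 2 * D ^ (30 * t) ≤ D * D ^ (30 * t) := Nat.mul_le_mul_right _ hD
        _ = D ^ (30 * t + 1) := by rw [pow_succ, mul_comm]
        _ ≤ D ^ (60 * t) := Nat.pow_le_pow_right hD0 (by omega)
    have hc : (ZZ 2 (w ^ 3) (D ^ (30 * t))).card ≤ 3 + 1 := by
      apply card_ZZ_big le_rfl hN h2N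
      calc 8 * (D ^ (30 * t)) ^ 2 ≤ 9 * (D ^ (30 * t)) ^ 2 := Nat.mul_le_mul_right _ (by norm_num)
        _ = 3 ^ 2 * D ^ (60 * t) := by rw [← pow_mul]; ring_nf
        _ ≤ 3 ^ 2 * w ^ 3 := Nat.mul_le_mul_left _ hM
    exact card_VV_le hc
  · calc (goodW (D ^ (30 * t)) (D ^ (32 * t)) (D ^ (60 * t - 28))).card * 4
        ≤ (856310 * t * G ^ 2 * D ^ (30 * t - 1)) * 4 := Nat.mul_le_mul_right _ h1
      _ = 3425240 * t * G ^ 2 * D ^ (30 * t - 1) := by ring

/-- the bad integers up to `D ^ (30 t)` -/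
noncomputable def Bad2 (D t Λ : ℕ) : Finset ℕ :=
  Bad D t Λ ∪ (goodW (D ^ (30 * t)) (D ^ (32 * t)) (D ^ (60 * t - 28))).biUnion
    (VV 2 3 (D ^ (30 * t)))

theorem card_Bad2 {D t Λ G : ℕ} (hD : 2 ≤ D) (ht : 2 ≤ t)
    (hG : ∀ T : ℕ, T ≤ 2400 * D ^ (60 * t) → T.divisors.card ≤ G * D) :
    (Bad2 D t Λ).card ≤ (16 * Λ ^ 2 + 1588 * t + 3425240 * t * G ^ 2) * D ^ (30 * t - 1) := by
  unfold Bad2
  refine (Finset.card_union_le _ _).trans ?_
  rw [add_mul (16 * Λ ^ 2 + 1588 * t)]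
  exact Nat.add_le_add (card_Bad hD ht) (card_highV hD ht hG)

/-- exponents `2, 3, 4` -/
theorem exp_red {x k : ℕ} (hx : 0 < x) (hk2 : 2 ≤ k) (hk5 : k < 5) :
    ∃ X p : ℕ, (p = 2 ∨ p = 3) ∧ 0 < X ∧ x ^ k = X ^ p := by
  interval_cases k
  · exact ⟨x, 2, Or.inl rfl, hx, rfl⟩
  · exact ⟨x, 3, Or.inr rfl, hx, rfl⟩
  · exact ⟨x ^ 2, 2, Or.inl rfl, by positivity, by rw [← pow_mul]⟩

/-- membership: low representations of `n ≡ 2 mod 4` -/
theorem mem_Bad2 {D t Λ n x y k l : ℕ} (hD : 2 ≤ D) (ht : 2 ≤ t) (hΛ5 : 5 ≤ Λ)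
    (hn : n ≤ D ^ (30 * t)) (hn4 : n % 4 = 2)
    (hx : 0 < x) (hy : 0 < y) (hk : 2 ≤ k) (hl : 2 ≤ l) (h : n + y ^ l = x ^ k)
    (hΛ : x ^ k < 2 ^ Λ)
    (h5 : 5 ≤ max k l → x ^ k ≤ (D ^ (30 * t - 1)) ^ (max k l))
    (h3 : max k l < 5 → x ^ k ≤ (D ^ (60 * t - 28)) ^ 3) : n ∈ Bad2 D t Λ := by
  have hD0 : 0 < D := by omega
  have inBad : n ∈ Bad D t Λ → n ∈ Bad2 D t Λ := by
    intro hb
    unfold Bad2
    rw [Finset.mem_union]
    exact Or.inl hb
  have inW : ∀ z w : ℕ, D ^ (32 * t) < w → w ≤ D ^ (60 * t - 28) →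
      (n + w ^ 3 = z ^ 2 ∨ n + z ^ 2 = w ^ 3) → n ∈ Bad2 D t Λ := by
    intro z w hw1 hw2 hnz
    unfold Bad2
    rw [Finset.mem_union]
    refine Or.inr ?_
    rw [Finset.mem_biUnion]
    refine ⟨w, ?_, mem_VV_of (by norm_num) hn hnz⟩
    rw [mem_goodW]
    exact ⟨⟨hw1, hw2⟩, z, by omega, by omega, by omega⟩
  by_cases hm : 5 ≤ max k l
  · exact inBad (mem_Bad hD ht hΛ5 hn hn4 hx hy hk hl h hΛ (fun _ => Or.inl (h5 hm))
      (Or.inr (Or.inr (by omega))))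
  · have hlow := h3 (by omega)
    have hk5 : k < 5 := lt_of_le_of_lt (le_max_left k l) (by omega)
    have hl5 : l < 5 := lt_of_le_of_lt (le_max_right k l) (by omega)
    obtain ⟨X, p, hp, hX0, hXe⟩ := exp_red hx hk hk5
    obtain ⟨Y, r, hr, hY0, hYe⟩ := exp_red hy hl hl5
    rw [hXe, hYe] at h
    rw [hXe] at hΛ hlow
    by_cases hs : X ^ p ≤ (D ^ (36 * t - 6)) ^ 3
    · refine inBad (mem_Bad hD ht hΛ5 hn hn4 hX0 hY0 (by omega) (by omega) h hΛ ?_ (Or.inl hs))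
      intro h4
      exfalso
      have : max p r < 4 := max_lt (by omega) (by omega)
      omega
    · rw [not_le] at hs
      -- a bound for small heights
      have hsmall : ∀ u : ℕ, u ≤ D ^ (32 * t) → n + u ^ 3 ≤ (D ^ (36 * t - 6)) ^ 3 := by
        intro u hu
        calc n + u ^ 3 ≤ D ^ (30 * t) + (D ^ (32 * t)) ^ 3 :=
              Nat.add_le_add hn (Nat.pow_le_pow_left hu 3)
          _ = D ^ (30 * t) + D ^ (96 * t) := by rw [← pow_mul, show 32 * t * 3 = 96 * t by ring]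
          _ ≤ D ^ (96 * t) + D ^ (96 * t) :=
              Nat.add_le_add_right (Nat.pow_le_pow_right hD0 (by omega)) _
          _ = 2 * D ^ (96 * t) := by ring
          _ ≤ D * D ^ (96 * t) := Nat.mul_le_mul_right _ hD
          _ = D ^ (96 * t + 1) := by rw [pow_succ, mul_comm]
          _ ≤ D ^ ((36 * t - 6) * 3) := Nat.pow_le_pow_right hD0 (by omega)
          _ = (D ^ (36 * t - 6)) ^ 3 := by rw [pow_mul]
      have hbase : ∀ u : ℕ, u ^ 3 ≤ (D ^ (60 * t - 28)) ^ 3 → u ≤ D ^ (60 * t - 28) := by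
        intro u hu
        by_contra hcon
        have := Nat.pow_lt_pow_left (not_le.1 hcon) (show 3 ≠ 0 by norm_num)
        omega
      rcases hp with rfl | rfl <;> rcases hr with rfl | rfl
      · -- two squares
        exfalso
        have h5 : (n + Y ^ 2) % 4 = X ^ 2 % 4 := by rw [h]
        have h6 : X % 4 = 0 ∨ X % 4 = 1 ∨ X % 4 = 2 ∨ X % 4 = 3 := by omega
        have h7 : Y % 4 = 0 ∨ Y % 4 = 1 ∨ Y % 4 = 2 ∨ Y % 4 = 3 := by omega
        rcases h6 with h6 | h6 | h6 | h6 <;> rcases h7 with h7 | h7 | h7 | h7 <;>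
          simp [Nat.pow_mod, Nat.add_mod, h6, h7, hn4] at h5
      · -- a square minus a cube
        refine inW X Y ?_ (hbase Y (by omega)) (Or.inl h)
        by_contra hcon
        have := hsmall Y (not_lt.1 hcon)
        omega
      · -- a cube minus a square
        refine inW Y X ?_ (hbase X hlow) (Or.inr h)
        by_contra hcon
        have := hsmall X (not_lt.1 hcon)
        omega
      · -- two cubes
        exfalso
        have hyx' : Y + 1 ≤ X := by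
          by_contra hcon
          have := Nat.pow_le_pow_left (show X ≤ Y by omega) 3
          omega
        have h5 : (Y + 1) ^ 3 ≤ X ^ 3 := Nat.pow_le_pow_left hyx' 3
        have h6 : (Y + 1) ^ 3 = Y ^ 3 + 3 * Y ^ 2 + 3 * Y + 1 := by ring
        have h7 : Y ^ 2 ≤ (D ^ (32 * t)) ^ 2 := by
          calc Y ^ 2 ≤ D ^ (30 * t) := by omega
            _ ≤ D ^ (32 * t * 2) := Nat.pow_le_pow_right hD0 (by omega)
            _ = (D ^ (32 * t)) ^ 2 := by rw [pow_mul]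
        have h9 := hsmall Y (le_of_sq_le h7)
        omega

end PerfectPowerDiff.Dens
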